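import Pool.Agent.H4.Q1.C3Geo
import Pool.Agent.H69.Q1.Orbit

set_option autoImplicit false
open Finset

/-! # Separation in a polygon (M3)

`sep_root` : a vertex of a free side joined to the wired arc separates the outer faces before it from
the outer faces after it. `poly_dual_rev` : a dual path with closed labels between a side before `n1`
and a side after `n2` excludes the crossing event `CI`. -/

namespace Pool.Agent.H48.Q1.M3

open Pool.Agent.H75.Perc hiding WL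
open Pool.Agent.H75.TwoArm Pool.Agent.H75.Four Pool.Agent.H65.Dom
open Pool.Agent.H49.Q1 Pool.Agent.Q1.M4 Pool.Agent.Q1.M5 Pool.Agent.H4.Q1
open Pool.Agent.H75.TwoArm.StrandAux hiding vx_nxC
open Pool.Agent.H69.Q1 (du_mono_left)

/-- outer face of a label of a side with direction `k` -/
def ofc (k : ℤ) (e : ℤ × ℤ) : ℤ × ℤ := ((e.1 + (dir (k - 1)).1 + 1) / 2, (e.2 + (dir (k - 1)).2 + 1) / 2)

/-- labels of the sides `n1 ≤ n < n2` -/
noncomputable def JL (P : PType) (X Y : ℤ → ℤ) (n1 n2 : ℕ) : Finset (ℤ × ℤ) :=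
  (Finset.Ico n1 n2).biUnion (fun n => sL X Y (P.side n))

variable {P : PType} {X Y : ℤ → ℤ}

/-- the labels of a side -/
lemma sL_iff (hX : Gap X) (hY : Gap Y) {s : Cell × ℤ} {e : ℤ × ℤ} :
    e ∈ sL X Y s ↔ ∃ l, 0 ≤ l ∧ l < len X Y s ∧ e = bw X Y s l + bw X Y s (l + 1) := by
  have h4 := hX s.1.1
  have h5 := hY s.1.2
  unfold Pool.Agent.Q1.M5.sL gcell
  rw [mem_filter, mem_Bx]
  constructor
  · rintro ⟨⟨⟨a1, a2⟩, ⟨a3, a4⟩, ho⟩, b0, b1, b2, b3⟩
    rcases bw_cases X Y s 0 with ⟨a, -, -, -, e', -⟩ | ⟨a, -, -, -, e', -⟩ |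
      ⟨a, -, -, -, e', -⟩ | ⟨a, -, -, -, e', -⟩
    · have hb := b0 a
      refine ⟨(e.1 - 2 * X s.1.1 - 1) / 2, by omega, by omega, ?_⟩
      rcases bw_cases X Y s ((e.1 - 2 * X s.1.1 - 1) / 2) with ⟨c, -, -, -, -, f⟩ |
        ⟨c, -, -, -, -, f⟩ | ⟨c, -, -, -, -, f⟩ | ⟨c, -, -, -, -, f⟩ <;>
      first | (exfalso; omega) | skip
      rcases bw_cases X Y s ((e.1 - 2 * X s.1.1 - 1) / 2 + 1) with ⟨c, -, -, -, -, g⟩ |
        ⟨c, -, -, -, -, g⟩ | ⟨c, -, -, -, -, g⟩ | ⟨c, -, -, -, -, g⟩ <;>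
      first | (exfalso; omega) | skip
      rw [f, g]
      exact Prod.ext (by simp only [Prod.mk_add_mk]; omega) (by simp only [Prod.mk_add_mk]; omega)
    · have hb := b1 a
      refine ⟨(e.2 - 2 * Y s.1.2 - 1) / 2, by omega, by omega, ?_⟩
      rcases bw_cases X Y s ((e.2 - 2 * Y s.1.2 - 1) / 2) with ⟨c, -, -, -, -, f⟩ |
        ⟨c, -, -, -, -, f⟩ | ⟨c, -, -, -, -, f⟩ | ⟨c, -, -, -, -, f⟩ <;>
      first | (exfalso; omega) | skip
      rcases bw_cases X Y s ((e.2 - 2 * Y s.1.2 - 1) / 2 + 1) with ⟨c, -, -, -, -, g⟩ |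
        ⟨c, -, -, -, -, g⟩ | ⟨c, -, -, -, -, g⟩ | ⟨c, -, -, -, -, g⟩ <;>
      first | (exfalso; omega) | skip
      rw [f, g]
      exact Prod.ext (by simp only [Prod.mk_add_mk]; omega) (by simp only [Prod.mk_add_mk]; omega)
    · have hb := b2 a
      refine ⟨(2 * X (s.1.1 + 1) - e.1 - 1) / 2, by omega, by omega, ?_⟩
      rcases bw_cases X Y s ((2 * X (s.1.1 + 1) - e.1 - 1) / 2) with ⟨c, -, -, -, -, f⟩ |
        ⟨c, -, -, -, -, f⟩ | ⟨c, -, -, -, -, f⟩ | ⟨c, -, -, -, -, f⟩ <;>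
      first | (exfalso; omega) | skip
      rcases bw_cases X Y s ((2 * X (s.1.1 + 1) - e.1 - 1) / 2 + 1) with ⟨c, -, -, -, -, g⟩ |
        ⟨c, -, -, -, -, g⟩ | ⟨c, -, -, -, -, g⟩ | ⟨c, -, -, -, -, g⟩ <;>
      first | (exfalso; omega) | skip
      rw [f, g]
      exact Prod.ext (by simp only [Prod.mk_add_mk]; omega) (by simp only [Prod.mk_add_mk]; omega)
    · have hb := b3 a
      refine ⟨(2 * Y (s.1.2 + 1) - e.2 - 1) / 2, by omega, by omega, ?_⟩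
      rcases bw_cases X Y s ((2 * Y (s.1.2 + 1) - e.2 - 1) / 2) with ⟨c, -, -, -, -, f⟩ |
        ⟨c, -, -, -, -, f⟩ | ⟨c, -, -, -, -, f⟩ | ⟨c, -, -, -, -, f⟩ <;>
      first | (exfalso; omega) | skip
      rcases bw_cases X Y s ((2 * Y (s.1.2 + 1) - e.2 - 1) / 2 + 1) with ⟨c, -, -, -, -, g⟩ |
        ⟨c, -, -, -, -, g⟩ | ⟨c, -, -, -, -, g⟩ | ⟨c, -, -, -, -, g⟩ <;>
      first | (exfalso; omega) | skip
      rw [f, g]
      exact Prod.ext (by simp only [Prod.mk_add_mk]; omega) (by simp only [Prod.mk_add_mk]; omega)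
  · rintro ⟨l, h2, h3, rfl⟩
    rcases bw_cases X Y s l with ⟨b, -, -, -, e, f⟩ | ⟨b, -, -, -, e, f⟩ |
      ⟨b, -, -, -, e, f⟩ | ⟨b, -, -, -, e, f⟩ <;>
    rcases bw_cases X Y s (l + 1) with ⟨c, -, -, -, -, g⟩ | ⟨c, -, -, -, -, g⟩ |
      ⟨c, -, -, -, -, g⟩ | ⟨c, -, -, -, -, g⟩ <;> first | (exfalso; omega) | skip
    all_goals
      rw [e] at h3
      rw [f, g]
      rw [Prod.mk_add_mk]
      refine ⟨⟨⟨?_, ?_⟩, ⟨?_, ?_⟩, ?_⟩, fun d => ?_, fun d => ?_, fun d => ?_, fun d => ?_⟩ <;>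
      first
      | (exfalso; omega)
      | (simp only; omega)

/-- the labels of the side `n` -/
lemma mem_sL (hX : Gap X) (hY : Gap Y) {n : ℕ} {e : ℤ × ℤ} :
    e ∈ sL X Y (P.side n) ↔
      ∃ l, 0 ≤ l ∧ l < ln P X Y n ∧ e = bp P X Y n l + bp P X Y n (l + 1) := sL_iff hX hY

/-- the outer face of the `l`-th label of the side `n` -/
lemma ofc_bp (n : ℕ) (l : ℤ) :
    ofc (P.side n).2 (bp P X Y n l + bp P X Y n (l + 1)) = rf P X Y n l := by
  unfold ofc Pool.Agent.H4.Q1.rf bp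
  rcases bw_cases X Y (P.side n) l with ⟨b, -, d, -, -, f⟩ | ⟨b, -, d, -, -, f⟩ |
    ⟨b, -, d, -, -, f⟩ | ⟨b, -, d, -, -, f⟩ <;>
  rcases bw_cases X Y (P.side n) (l + 1) with ⟨c, -, -, -, -, g⟩ | ⟨c, -, -, -, -, g⟩ |
    ⟨c, -, -, -, -, g⟩ | ⟨c, -, -, -, -, g⟩ <;> first | (exfalso; omega) | skip
  all_goals
    rcases qf_cases (bw X Y (P.side n) l) (P.side n).2 with ⟨a, -, h, -⟩ | ⟨a, -, h, -⟩ |
      ⟨a, -, h, -⟩ | ⟨a, -, h, -⟩ <;> first | (exfalso; omega) | skip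
    rw [h, f, g, d]
    simp only [Prod.mk_add_mk, Prod.mk.injEq]
    omega

/-- the points of a side are joined along the side -/
lemma side_co (hX : Gap X) (hY : Gap Y) {n : ℕ} {l : ℤ} (h2 : 0 ≤ l) (h3 : l ≤ ln P X Y n) :
    Co (sL X Y (P.side n)) (bp P X Y n l) (bp P X Y n 1) := by
  have step : ∀ l, 0 ≤ l → l < ln P X Y n →
      Co (sL X Y (P.side n)) (bp P X Y n l) (bp P X Y n (l + 1)) := by
    intro l h2 h3
    refine Relation.ReflTransGen.single ⟨?_, (mem_sL hX hY).2 ⟨l, h2, h3, rfl⟩⟩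
    rw [bp_succ]
    exact unit_dir _ _
  have key : ∀ j : ℕ, (j : ℤ) ≤ ln P X Y n →
      Co (sL X Y (P.side n)) (bp P X Y n 0) (bp P X Y n j) := by
    intro j
    induction j with
    | zero => intro _; exact Co.refl _ _
    | succ j ih =>
      intro hj
      push_cast at hj ⊢
      exact (ih (by omega)).trans (step _ (by omega) (by omega))
  have h4 := key l.toNat (by rw [Int.toNat_of_nonneg h2]; exact h3)
  rw [Int.toNat_of_nonneg h2] at h4
  have h5 := key 1 (by have := ln_ge (P := P) hX hY n; push_cast; omega)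
  rw [Nat.cast_one] at h5
  exact h4.symm.trans h5

/-- **Separation by a vertex joined to the wired arc.** -/
theorem sep_root (hX : Gap X) (hY : Gap Y) {ω : Finset (ℤ × ℤ)} (hω : ω ⊆ gs X Y P.Q) {n0 : ℕ}
    {l0 : ℤ} (hn0 : n0 < P.m) (h0 : 0 < l0) (h1 : l0 < ln P X Y n0)
    (hCT : CT P X Y (bp P X Y n0 l0) ω) {i j : ℕ} {l l' : ℤ} (hl : 0 ≤ l) (hl1 : l < ln P X Y i)
    (hi : i < n0 ∨ (i = n0 ∧ l < l0)) (hj : j < P.m) (hl' : 0 ≤ l') (hl1' : l' < ln P X Y j)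
    (hj' : n0 < j ∨ (n0 = j ∧ l0 ≤ l')) {B : Finset (ℤ × ℤ)} (hB : B ⊆ gs X Y P.Q) :
    ¬ Co (du B (ω ∪ WL P X Y)) (rf P X Y i l) (rf P X Y j l') := by
  intro hD
  obtain ⟨M, hM⟩ := exists_Boxed P X Y
  have hx' := ot_out (P := P) hX hY n0 h0 h1
  have c1 := cor_before hX hY (M1 := M) hM hn0 h0.le h1 h0 hx' hl hl1 hi
  have c2 := cor_after hX hY (M1 := M) hM hn0 h0.le h1 hx' hj hl' hl1' hj'
  set e0 := root (P.side n0).2 (bp P X Y n0 l0) with he0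
  have hr := (root_conn hX hY hM hω hn0 h0.le h1 (Or.inr h0) hx' he0).2 hCT
  have hnm := root_not_mem hX hY (M := M) hn0 h0.le h1 (Or.inr h0) hx'
  rw [← he0, mem_union, not_or] at hnm
  set L := ω ∪ insert e0 (XW P X Y M) with hL
  have hLc : L ⊆ cor P X Y M e0 := by
    unfold cor
    exact union_subset_union_left hω
  have hodd : (e0.1 + e0.2) % 2 = 1 := odd_dir _ _
  have d1 : Co (du (H75.TwoArm.BB M ∪ B) L) (rf P X Y i l)
      (qf (bp P X Y n0 l0) ((P.side n0).2 - 1)) :=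
    (c1.mono (du_anti hLc)).mono (du_mono_left subset_union_left)
  have d2 : Co (du (H75.TwoArm.BB M ∪ B) L) (rf P X Y j l') (qf (bp P X Y n0 l0) (P.side n0).2) :=
    (c2.mono (du_anti hLc)).mono (du_mono_left subset_union_left)
  have d3 : Co (du (H75.TwoArm.BB M ∪ B) L) (rf P X Y i l) (rf P X Y j l') := by
    refine (hD.mono ?_).mono (du_mono_left subset_union_right)
    unfold du
    refine map_subset_map.2 fun a ha => ?_
    rw [mem_sdiff] at ha ⊢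
    refine ⟨ha.1, fun h2 => ?_⟩
    have hag := hB ha.1
    rw [hL, mem_union, mem_insert] at h2
    rw [mem_union, not_or] at ha
    rcases h2 with h2 | h2 | h2
    · exact ha.2.1 h2
    · exact hnm.1 (h2 ▸ hag)
    · have h3 := gs_ends hag
      rcases outer_ends h2 ha.2.2 with h4 | h4
      · exact h4 h3.1
      · exact h4 h3.2
  have d4 : Co (du (H75.TwoArm.BB M ∪ B) L) (qf (bp P X Y n0 l0) ((P.side n0).2 - 1))
      (qf (bp P X Y n0 l0) (P.side n0).2) := d1.symm.trans (d3.trans d2)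
  have hins : insert e0 L = L := insert_eq_self.2 (by
    rw [hL]; exact mem_union_right _ (mem_insert_self _ _))
  have hFc := root_Fc (P.side n0).2 (bp P X Y n0 l0)
  rw [← he0] at hFc
  have hsep : Co (du (H75.TwoArm.BB M ∪ B) (insert e0 L)) (fi (zu e0)) (fi (zv e0)) := by
    rw [hins]
    rcases hFc with ⟨h3, h4⟩ | ⟨h3, h4⟩
    · rw [← h3, ← h4]; exact d4
    · rw [← h3, ← h4]; exact d4.symm
  have := Pool.Agent.H81.NC.sep_of_dual hodd hsep
  obtain ⟨-, -, -, -, hu, hv⟩ := Pool.Agent.H75.Four.opc_zu hodd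
  rw [hu, hv] at this
  exact this hr

/-- **Separation, converse part of the duality in a polygon.** -/
theorem poly_dual_rev (hX : Gap X) (hY : Gap Y) {n1 n2 : ℕ}
    {w : Finset (ℤ × ℤ)} (hw : w ⊆ gs X Y P.Q) {i : ℕ} (hi : i < n1) {e : ℤ × ℤ}
    (he : e ∈ sL X Y (P.side i)) {j : ℕ} (hj : n2 ≤ j) (hjm : j < P.m) {e' : ℤ × ℤ}
    (he' : e' ∈ sL X Y (P.side j))
    (hD : Co (du (gs X Y P.Q \ JL P X Y n1 n2) (w ∪ WL P X Y)) (ofc (P.side i).2 e)
      (ofc (P.side j).2 e')) : ¬ CI P X Y n1 n2 w := by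
  rintro ⟨n, h1, h2, v, hv, hCT⟩
  obtain ⟨l, h3, h4, rfl⟩ := (mem_sL hX hY).1 he
  obtain ⟨l', h3', h4', rfl⟩ := (mem_sL hX hY).1 he'
  rw [ofc_bp, ofc_bp] at hD
  obtain ⟨a, h5, h6, rfl⟩ := (sV_iff hX hY).1 hv
  have hln := ln_ge (P := P) hX hY n
  have hsub : sL X Y (P.side n) ⊆ JL P X Y n1 n2 := fun x hx =>
    mem_biUnion.2 ⟨n, mem_Ico.2 ⟨h1, h2⟩, hx⟩
  have hJ : JL P X Y n1 n2 ⊆ gs X Y P.Q := by
    intro x hx
    obtain ⟨n', -, hx'⟩ := mem_biUnion.1 hx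
    unfold Pool.Agent.Q1.M5.sL at hx'
    exact mem_gs.2 ⟨(P.side n').1, (isSide_side n').1, (mem_filter.1 hx').1⟩
  have hside := side_co (P := P) hX hY h5 h6
  have hCT' : CT P X Y (bp P X Y n 1) (w ∪ JL P X Y n1 n2) := by
    obtain ⟨t, ht, hvt⟩ := hCT
    refine ⟨t, ht, (hside.symm.mono fun x hx => ?_).trans (hvt.mono fun x hx => ?_)⟩
    · exact mem_union_left _ (mem_union_right _ (hsub hx))
    · rcases mem_union.1 hx with h7 | h7
      · exact mem_union_left _ (mem_union_left _ h7)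
      · exact mem_union_right _ h7
  refine sep_root hX hY (union_subset hw hJ) (n0 := n) (l0 := 1) (by omega) (by omega) (by omega)
    hCT' h3 h4 (Or.inl (by omega)) hjm h3' h4' (Or.inl (by omega)) (B := gs X Y P.Q \ JL P X Y n1 n2)
    sdiff_subset (hD.mono ?_)
  unfold du
  refine map_subset_map.2 fun a ha => ?_
  rw [mem_sdiff, mem_sdiff, mem_union, not_or] at ha
  rw [mem_sdiff, mem_sdiff, mem_union, mem_union, not_or, not_or]
  exact ⟨ha.1, ⟨ha.2.1, ha.1.2⟩, ha.2.2⟩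

end Pool.Agent.H48.Q1.M3
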