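import Pool.Agent.Q1.M3.Pg.PolyDual
import Pool.Agent.H48.Q1.M3.PSep

set_option autoImplicit false
open Finset

/-! # Separation in a polygon, in the notation of `Q1/M3/Pg/PolyDual.lean` -/

namespace Pool.Agent.H48.Q1.M3

open Pool.Agent.H75.Perc hiding WL
open Pool.Agent.H75.TwoArm Pool.Agent.H75.Four
open Pool.Agent.H49.Q1 (gcell gs mem_gs CJ)
open Pool.Agent.Q1.M4 (Adj4 Conn4 Good IsSide inV nextSide tail head PType)
open Pool.Agent.Q1.M5 (sV sL WL TV CT CI lv)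
open Pool.Agent.H5.Q1 (sp slen)
open Pool.Agent.H4.Q1 (Gap bw len bp ln)
open Pool.Agent.Q1.M3.Pg (sl')

variable {P : PType} {X Y : ℤ → ℤ}

/-- the points of a side in the two notations -/
lemma sp_eq (s : (ℤ × ℤ) × ℤ) (j : ℕ) : sp X Y s j = bw X Y s j := by
  unfold sp bw Pool.Agent.H5.Q1.gp Pool.Agent.Q1.M4.lpt
  ext <;> simp

lemma slen_eq (hX : Gap X) (hY : Gap Y) (s : (ℤ × ℤ) × ℤ) : (slen X Y s : ℤ) = len X Y s := by
  have h1 := hX s.1.1
  have h2 := hY s.1.2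
  unfold slen len
  split_ifs <;> rw [Int.toNat_of_nonneg (by omega)]

lemma ofc_rf (n j : ℕ) : Pool.Agent.Q1.M3.Pg.ofc X Y (P.side n) j = Pool.Agent.H4.Q1.rf P X Y n j := by
  rw [Pool.Agent.Q1.M3.Pg.ofc_eq, ← ofc_bp]
  unfold ofc sl' bp
  rw [sp_eq, sp_eq]
  push_cast
  rfl

/-- **Separation by a vertex joined to the wired arc.** The vertex `j0` (not an end) of the free side
`n0` is joined to the wired arc by labels of `ω` and wired labels; then the outer faces before it and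
after it are not joined by closed labels of the polygon. -/
theorem poly_sep (hX : Gap X) (hY : Gap Y) {ω : Finset (ℤ × ℤ)} (hω : ω ⊆ gs X Y P.Q) {n0 j0 : ℕ}
    (hn0 : n0 < P.m) (h0 : 0 < j0) (h1 : j0 < slen X Y (P.side n0))
    (hCT : CT P X Y (sp X Y (P.side n0) j0) ω) {i j i' j' : ℕ} (hj : j < slen X Y (P.side i))
    (hi : i < n0 ∨ (i = n0 ∧ j < j0)) (hi' : i' < P.m) (hj' : j' < slen X Y (P.side i'))
    (hi'' : n0 < i' ∨ (n0 = i' ∧ j0 ≤ j')) {B : Finset (ℤ × ℤ)} (hB : B ⊆ gs X Y P.Q) :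
    ¬ Co (du B (ω ∪ WL P X Y)) (Pool.Agent.Q1.M3.Pg.ofc X Y (P.side i) j)
      (Pool.Agent.Q1.M3.Pg.ofc X Y (P.side i') j') := by
  rw [ofc_rf, ofc_rf]
  have e1 := slen_eq hX hY (P.side n0)
  have e2 := slen_eq hX hY (P.side i)
  have e3 := slen_eq hX hY (P.side i')
  rw [sp_eq] at hCT
  exact sep_root hX hY hω hn0 (l0 := j0) (by omega) (by unfold ln; omega) hCT (by omega)
    (by unfold ln; omega) (by omega) hi' (by omega) (by unfold ln; omega) (by omega) hB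

/-- **Converse of `poly_dual`.** -/
theorem poly_dual_conv (hX : Gap X) (hY : Gap Y) {n1 n2 : ℕ} {w : Finset (ℤ × ℤ)}
    (hw : w ⊆ gs X Y P.Q) {i j i' j' : ℕ} (hi : i < n1) (hj : j < slen X Y (P.side i))
    (hi' : n2 ≤ i') (him : i' < P.m) (hj' : j' < slen X Y (P.side i'))
    (hD : Co (du (gs X Y P.Q \ (Finset.Ico n1 n2).biUnion (fun n => sL X Y (P.side n)))
      (w ∪ WL P X Y)) (Pool.Agent.Q1.M3.Pg.ofc X Y (P.side i) j)
      (Pool.Agent.Q1.M3.Pg.ofc X Y (P.side i') j')) : ¬ CI P X Y n1 n2 w := by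
  have e2 := slen_eq hX hY (P.side i)
  have e3 := slen_eq hX hY (P.side i')
  rw [ofc_rf, ofc_rf, ← ofc_bp, ← ofc_bp] at hD
  exact poly_dual_rev hX hY hw hi ((mem_sL hX hY).2 ⟨j, by omega, by unfold ln; omega, rfl⟩)
    hi' him ((mem_sL hX hY).2 ⟨j', by omega, by unfold ln; omega, rfl⟩) hD

/-! ### Vertices of the sides -/

/-- no vertex of a side between `0` and `m - 1` is in the wired arc -/
lemma TVs (hX : Gap X) (hY : Gap Y) {i : ℕ} (h0 : 0 < i) (h1 : i + 1 < P.m) {v : ℤ × ℤ}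
    (hv : sV X Y (P.side i) v) : ¬ TV P X Y v := by
  obtain ⟨l, h2, h3, rfl⟩ := (Pool.Agent.H4.Q1.sV_iff hX hY).1 hv
  rcases h3.lt_or_eq with h4 | h4
  · exact Pool.Agent.H4.Q1.free_not_TV hX hY (P := P) (by omega) h2 h4 (Or.inl h0)
  · have h5 := Pool.Agent.H4.Q1.bp_end (P := P) (X := X) (Y := Y) i
    unfold bp ln at h5
    rw [h4, h5]
    have := Pool.Agent.H4.Q1.ln_ge (P := P) hX hY (i + 1)
    exact Pool.Agent.H4.Q1.free_not_TV hX hY (P := P) h1 le_rfl (by omega) (Or.inl (by omega))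

lemma lv_eq (n : ℕ) : lv P X Y n = bp P X Y n 0 := by
  unfold lv bp bw
  rw [zero_smul, add_zero]
  rfl

/-- the grid vertices of the open free arc are not in the wired arc -/
lemma lv_not_TV (hX : Gap X) (hY : Gap Y) {i : ℕ} (h0 : 0 < i) (h1 : i < P.m) :
    ¬ TV P X Y (lv P X Y i) := by
  rw [lv_eq]
  have := Pool.Agent.H4.Q1.ln_ge (P := P) hX hY i
  exact Pool.Agent.H4.Q1.free_not_TV hX hY (P := P) h1 le_rfl (by omega) (Or.inl h0)

/-- a vertex of a closed side is an interior lattice point or one of the two ends -/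
lemma sV_cases (hX : Gap X) (hY : Gap Y) {i : ℕ} {v : ℤ × ℤ} (hv : sV X Y (P.side i) v) :
    (∃ j : ℕ, 0 < j ∧ j < slen X Y (P.side i) ∧ v = sp X Y (P.side i) j) ∨ v = lv P X Y i ∨
      v = lv P X Y (i + 1) := by
  obtain ⟨l, h2, h3, rfl⟩ := (Pool.Agent.H4.Q1.sV_iff hX hY).1 hv
  have e := slen_eq hX hY (P.side i)
  rcases h2.eq_or_lt with h4 | h4
  · right; left
    rw [lv_eq, ← h4]; rfl
  · rcases h3.lt_or_eq with h5 | h5
    · left
      refine ⟨l.toNat, by omega, by omega, ?_⟩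
      rw [sp_eq, Int.toNat_of_nonneg h2]
    · right; right
      rw [lv_eq, ← Pool.Agent.H4.Q1.bp_end]
      unfold bp ln
      rw [h5]

end Pool.Agent.H48.Q1.M3
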