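import Pool.Agent.H48.Q1.M3.Ring
import Pool.Agent.H75.TwoArm.Symm

set_option autoImplicit false
open Finset

/-! # Explicit form of the contour

`cr v d` is the corner of the vertex `v` whose next label is the edge from `v` in direction `d`; the
face of the corner is on the left of this edge. -/

namespace Pool.Agent.H48.Q1.M3

open Pool.Agent.H75.Perc Pool.Agent.H75.TwoArm Pool.Agent.H75.Four Pool.Agent.H99.NC
open Pool.Agent.H69.Q1 Pool.Agent.H39.Q1 Pool.Agent.H28.Q1 Pool.Agent.Q1.M3 Pool.Agent.Q1.M3.Pg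
open Pool.Agent.H75.TwoArm.StrandAux hiding vx_nxC

/-- the label of the edge from `v` in direction `d` -/
def lb (v d : ℤ × ℤ) : ℤ × ℤ := (2 * v.1 + d.1, 2 * v.2 + d.2)

/-- the corner of the vertex `v` before the direction `d` -/
def cr (v d : ℤ × ℤ) : ℤ × ℤ := (2 * v.1 + (1 + d.1 - d.2) / 2, 2 * v.2 + (1 + d.1 + d.2) / 2)

/-- left turn -/
def lt (d : ℤ × ℤ) : ℤ × ℤ := (-d.2, d.1)

/-- right turn -/
def rt (d : ℤ × ℤ) : ℤ × ℤ := (d.2, -d.1)

@[simp] lemma lt_rt (d : ℤ × ℤ) : lt (rt d) = d := by simp [lt, rt]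

@[simp] lemma rt_lt (d : ℤ × ℤ) : rt (lt d) = d := by simp [lt, rt]

lemma lt_eq_neg (d : ℤ × ℤ) : lt d = -rt d := by
  ext <;> simp [lt, rt]

lemma rt_rt (d : ℤ × ℤ) : rt (rt d) = -d := by
  ext <;> simp [rt]

lemma unit_rt {d : ℤ × ℤ} (h : IsUnit4 d) : IsUnit4 (rt d) := by
  rcases h with rfl | rfl | rfl | rfl <;> simp [IsUnit4, rt]

lemma unit_lt {d : ℤ × ℤ} (h : IsUnit4 d) : IsUnit4 (lt d) := by
  rcases h with rfl | rfl | rfl | rfl <;> simp [IsUnit4, lt]

lemma vx_cr (v : ℤ × ℤ) {d : ℤ × ℤ} (h : IsUnit4 d) : vx (cr v d) = v := by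
  obtain ⟨a, b⟩ := v
  rcases h with rfl | rfl | rfl | rfl <;>
    simp only [vx, cr, Prod.mk.injEq] <;> omega

lemma cr_E (a b : ℤ) : cr (a, b) (1, 0) = (2 * a + 1, 2 * b + 1) := rfl
lemma cr_N (a b : ℤ) : cr (a, b) (0, 1) = (2 * a + 0, 2 * b + 1) := rfl
lemma cr_W (a b : ℤ) : cr (a, b) (-1, 0) = (2 * a + 0, 2 * b + 0) := rfl
lemma cr_S (a b : ℤ) : cr (a, b) (0, -1) = (2 * a + 1, 2 * b + 0) := rfl

lemma plab_cr (v : ℤ × ℤ) {d : ℤ × ℤ} (h : IsUnit4 d) : plab (cr v d) = lb v d := by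
  obtain ⟨a, b⟩ := v
  rcases h with rfl | rfl | rfl | rfl
  · rw [cr_E]; unfold plab lb; dsimp only; rw [if_neg (by omega), if_neg (by omega), Prod.mk.injEq]
    omega
  · rw [cr_N]; unfold plab lb; dsimp only; rw [if_neg (by omega), if_pos (by omega), Prod.mk.injEq]
    omega
  · rw [cr_W]; unfold plab lb; dsimp only; rw [if_pos (by omega), if_pos (by omega), Prod.mk.injEq]
    omega
  · rw [cr_S]; unfold plab lb; dsimp only; rw [if_pos (by omega), if_neg (by omega), Prod.mk.injEq]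
    omega

/-- the face of the corner: on the left of the edge -/
lemma fi_cr (v : ℤ × ℤ) {d : ℤ × ℤ} (h : IsUnit4 d) :
    fi (cr v d) = (v.1 + (1 + d.1 - d.2) / 2, v.2 + (1 + d.1 + d.2) / 2) := by
  obtain ⟨a, b⟩ := v
  rcases h with rfl | rfl | rfl | rfl <;>
    simp only [fi, cr, Prod.mk.injEq] <;> omega

lemma cr_inj {v v' d d' : ℤ × ℤ} (h : IsUnit4 d) (h' : IsUnit4 d') (he : cr v d = cr v' d') :
    v = v' ∧ d = d' := by
  obtain ⟨a, b⟩ := v
  obtain ⟨a', b'⟩ := v'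
  rcases h with rfl | rfl | rfl | rfl <;> rcases h' with rfl | rfl | rfl | rfl <;>
    (simp only [cr, Prod.mk.injEq] at he ⊢; first | omega | simp; omega)

/-- every corner is of this form -/
lemma exists_cr (c : ℤ × ℤ) : ∃ d, IsUnit4 d ∧ c = cr (vx c) d := by
  obtain ⟨x, y⟩ := c
  rcases Int.emod_two_eq_zero_or_one x with h1 | h1 <;>
    rcases Int.emod_two_eq_zero_or_one y with h2 | h2
  · exact ⟨(-1, 0), by simp [IsUnit4], by simp only [cr, vx, Prod.mk.injEq]; omega⟩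
  · exact ⟨(0, 1), by simp [IsUnit4], by simp only [cr, vx, Prod.mk.injEq]; omega⟩
  · exact ⟨(0, -1), by simp [IsUnit4], by simp only [cr, vx, Prod.mk.injEq]; omega⟩
  · exact ⟨(1, 0), by simp [IsUnit4], by simp only [cr, vx, Prod.mk.injEq]; omega⟩

lemma odd_lb (v : ℤ × ℤ) {d : ℤ × ℤ} (h : IsUnit4 d) : ((lb v d).1 + (lb v d).2) % 2 = 1 := by
  rw [← plab_cr v h]; exact Pool.Agent.H39.Q1.odd_plab _

/-- the ends of a label -/
lemma ends_lb (v : ℤ × ℤ) {d : ℤ × ℤ} (h : IsUnit4 d) :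
    (eu (lb v d) = v ∧ ev (lb v d) = v + d) ∨ (eu (lb v d) = v + d ∧ ev (lb v d) = v) := by
  obtain ⟨a, b⟩ := v
  rcases h with rfl | rfl | rfl | rfl <;>
    simp only [eu, ev, lb, Prod.mk.injEq, Prod.mk_add_mk] <;> omega

lemma lb_neg (v d : ℤ × ℤ) : lb (v + d) (-d) = lb v d := by
  ext <;> simp [lb] <;> ring

lemma lb_add (v d : ℤ × ℤ) : lb v d = v + (v + d) := by
  ext <;> simp [lb] <;> ring

/-- the labels are equal only if they are the same edge -/
lemma lb_inj {v v' d d' : ℤ × ℤ} (h : IsUnit4 d) (h' : IsUnit4 d') (he : lb v d = lb v' d') :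
    (v = v' ∧ d = d') ∨ (v' = v + d ∧ d' = -d) := by
  obtain ⟨a, b⟩ := v
  obtain ⟨a', b'⟩ := v'
  rcases h with rfl | rfl | rfl | rfl <;> rcases h' with rfl | rfl | rfl | rfl <;>
    (simp only [lb, Prod.mk.injEq, Prod.mk_add_mk, Prod.neg_mk] at he ⊢; first | omega | simp; omega)

variable {K L : Finset (ℤ × ℤ)}

lemma lb_kap_iff (v : ℤ × ℤ) {d : ℤ × ℤ} (h : IsUnit4 d) : lb v d ∈ kap K ↔ v ∈ K ∧ v + d ∈ K := by
  rw [mem_kap_iff (odd_lb v h)]
  rcases ends_lb v h with ⟨h1, h2⟩ | ⟨h1, h2⟩ <;> rw [h1, h2]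
  tauto

lemma lb_star_iff (v : ℤ × ℤ) {d : ℤ × ℤ} (h : IsUnit4 d) :
    lb v d ∈ star K ↔ v ∈ K ∨ v + d ∈ K := by
  rw [mem_star_iff (odd_lb v h)]
  rcases ends_lb v h with ⟨h1, h2⟩ | ⟨h1, h2⟩ <;> rw [h1, h2]
  tauto

lemma lb_perp_iff (v : ℤ × ℤ) {d : ℤ × ℤ} (h : IsUnit4 d) :
    lb v d ∈ perp K ↔ (v ∈ K ∧ v + d ∉ K) ∨ (v ∉ K ∧ v + d ∈ K) := by
  unfold perp
  rw [mem_sdiff, lb_star_iff v h, lb_kap_iff v h]
  tauto

/-- closed label: turn right -/
lemma pv_cr_closed (v : ℤ × ℤ) {d : ℤ × ℤ} (h : IsUnit4 d) (hL : lb v d ∉ L) :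
    pv L (cr v d) = cr v (rt d) := by
  rw [SymmAux.pv_eq, plab_cr v h, if_neg hL]
  obtain ⟨a, b⟩ := v
  rcases h with rfl | rfl | rfl | rfl <;> simp only [rt, neg_zero, neg_neg]
  · rw [cr_E, cr_S]; unfold SymmAux.pvC; dsimp only
    rw [if_neg (by omega), if_neg (by omega), Prod.mk.injEq]; omega
  · rw [cr_N, cr_E]; unfold SymmAux.pvC; dsimp only
    rw [if_neg (by omega), if_pos (by omega), Prod.mk.injEq]; omega
  · rw [cr_W, cr_N]; unfold SymmAux.pvC; dsimp only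
    rw [if_pos (by omega), if_pos (by omega), Prod.mk.injEq]; omega
  · rw [cr_S, cr_W]; unfold SymmAux.pvC; dsimp only
    rw [if_pos (by omega), if_neg (by omega), Prod.mk.injEq]; omega

/-- open label: cross the edge and turn left -/
lemma pv_cr_open (v : ℤ × ℤ) {d : ℤ × ℤ} (h : IsUnit4 d) (hL : lb v d ∈ L) :
    pv L (cr v d) = cr (v + d) (lt d) := by
  rw [SymmAux.pv_eq, plab_cr v h, if_pos hL]
  obtain ⟨a, b⟩ := v
  rcases h with rfl | rfl | rfl | rfl <;> simp only [lt, neg_zero, neg_neg, Prod.mk_add_mk]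
  · rw [cr_E, cr_N]; unfold SymmAux.pvO; dsimp only
    rw [if_neg (by omega), if_neg (by omega), Prod.mk.injEq]; omega
  · rw [cr_N, cr_W]; unfold SymmAux.pvO; dsimp only
    rw [if_neg (by omega), if_pos (by omega), Prod.mk.injEq]; omega
  · rw [cr_W, cr_S]; unfold SymmAux.pvO; dsimp only
    rw [if_pos (by omega), if_pos (by omega), Prod.mk.injEq]; omega
  · rw [cr_S, cr_E]; unfold SymmAux.pvO; dsimp only
    rw [if_pos (by omega), if_neg (by omega), Prod.mk.injEq]; omega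

/-- the labels of the four corners of a vertex: joined faces -/
lemma dual_vertex {G : Finset (ℤ × ℤ)} {v : ℤ × ℤ} (hG : ∀ d, IsUnit4 d → lb v d ∉ G) {z z' : ℤ × ℤ}
    (hz : vx z = v) (hz' : vx z' = v) : ∃ M, Co (du M G) (fi z) (fi z') := by
  obtain ⟨d, hd, h1⟩ := exists_cr z
  obtain ⟨d', hd', h2⟩ := exists_cr z'
  rw [hz] at h1
  rw [hz'] at h2
  have s1 : (pv G)^[1] (cr v d) = cr v (rt d) := pv_cr_closed v hd (hG d hd)
  have s2 : (pv G)^[2] (cr v d) = cr v (rt (rt d)) := by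
    rw [Function.iterate_succ_apply', s1]; exact pv_cr_closed v (unit_rt hd) (hG _ (unit_rt hd))
  have s3 : (pv G)^[3] (cr v d) = cr v (rt (rt (rt d))) := by
    rw [Function.iterate_succ_apply', s2]
    exact pv_cr_closed v (unit_rt (unit_rt hd)) (hG _ (unit_rt (unit_rt hd)))
  have key : ∃ k, (pv G)^[k] z = z' := by
    rw [h1, h2]
    have : d' = d ∨ d' = rt d ∨ d' = rt (rt d) ∨ d' = rt (rt (rt d)) := by
      rcases hd with rfl | rfl | rfl | rfl <;> rcases hd' with rfl | rfl | rfl | rfl <;>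
        simp [rt]
    rcases this with h3 | h3 | h3 | h3
    · exact ⟨0, by rw [h3]; rfl⟩
    · exact ⟨1, by rw [h3, s1]⟩
    · exact ⟨2, by rw [h3, s2]⟩
    · exact ⟨3, by rw [h3, s3]⟩
  obtain ⟨k, hk⟩ := key
  have h3 := Pool.Agent.H39.Q1.side_dual G z (Nat.zero_le k)
  rw [hk] at h3
  exact ⟨_, h3⟩

/-! ### Three steps of the contour of `K` -/

variable {X : DEnv} {v d : ℤ × ℤ} {i : ℕ}

lemma lb_kw_iff (v : ℤ × ℤ) {d : ℤ × ℤ} (h : IsUnit4 d) :
    lb v d ∈ kw X K ↔ (v ∈ K ∧ v + d ∈ K) ∧ lb v d ∈ X.E ∪ X.W := by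
  rw [mem_inter, lb_kap_iff v h]

/-- convex corner of `K`: the next label is at the same vertex -/
lemma step1 (hd : IsUnit4 d) (hi : (pv (kw X K))^[i] X.β = cr v d) (h1 : v + d ∉ K) :
    (pv (kw X K))^[i + 1] X.β = cr v (rt d) := by
  rw [Function.iterate_succ_apply', hi, pv_cr_closed v hd]
  rw [lb_kw_iff v hd]
  tauto

/-- straight side of `K` -/
lemma step2 (hd : IsUnit4 d) (hi : (pv (kw X K))^[i] X.β = cr v d) (h0 : v ∈ K) (h1 : v + d ∉ K)
    (h2 : v + rt d ∈ K) (e1 : lb v (rt d) ∈ X.E ∪ X.W) :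
    (pv (kw X K))^[i + 2] X.β = cr (v + rt d) d := by
  have h := step1 hd hi h1
  rw [Function.iterate_succ_apply', h, pv_cr_open v (unit_rt hd), lt_rt]
  rw [lb_kw_iff v (unit_rt hd)]
  exact ⟨⟨h0, h2⟩, e1⟩

/-- reflex corner of `K` -/
lemma step3 (hd : IsUnit4 d) (hi : (pv (kw X K))^[i] X.β = cr v d) (h0 : v ∈ K) (h1 : v + d ∉ K)
    (h2 : v + rt d ∈ K) (h3 : v + rt d + d ∈ K) (e1 : lb v (rt d) ∈ X.E ∪ X.W)
    (e2 : lb (v + rt d) d ∈ X.E ∪ X.W) :
    (pv (kw X K))^[i + 3] X.β = cr (v + rt d + d) (lt d) := by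
  have h := step2 hd hi h0 h1 h2 e1
  rw [Function.iterate_succ_apply', h, pv_cr_open _ hd]
  rw [lb_kw_iff _ hd]
  exact ⟨⟨h2, h3⟩, e2⟩

/-- `At X K v d i`: the label of the edge from `v ∈ K` to `v + d ∉ K` is at the position `i` of the
ring. -/
structure At (X : DEnv) (K : Finset (ℤ × ℤ)) (v d : ℤ × ℤ) (i : ℕ) : Prop where
  hlt : i < rper X K
  unit : IsUnit4 d
  mem : v ∈ K
  notMem : v + d ∉ K
  eq : (pv (kw X K))^[i] X.β = cr v d

lemma At.ring (h : At X K v d i) : ringE X K i = lb v d := by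
  unfold ringE
  rw [h.eq, plab_cr v h.unit]

lemma At.rpos (h : At X K v d i) : RPos X K (lb v d) i := rpos_iff.2 ⟨h.ring, h.hlt⟩

lemma At.perp' (h : At X K v d i) : lb v d ∈ perp K := by
  rw [lb_perp_iff v h.unit]
  exact Or.inl ⟨h.mem, h.notMem⟩

lemma At.perp (h : At X K v d i) : ringE X K i ∈ perp K := by
  rw [h.ring]; exact h.perp'

lemma At.inj {j : ℕ} (h : At X K v d i) (h' : At X K v d j) : i = j :=
  rper_inj h.hlt h'.hlt (h.eq.trans h'.eq.symm)

/-- the outer end of the label -/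
lemma At.outer' (h : At X K v d i) : v + d = eu (lb v d) ∨ v + d = ev (lb v d) := by
  rcases ends_lb v h.unit with ⟨h1, h2⟩ | ⟨h1, h2⟩
  · exact Or.inr h2.symm
  · exact Or.inl h1.symm

lemma At.outer (h : At X K v d i) : v + d = eu (ringE X K i) ∨ v + d = ev (ringE X K i) := by
  rw [h.ring]; exact h.outer'

/-- every position of the ring with a label of `perp K` is of this form -/
lemma exists_at (hb : vx X.β ∈ K) (hi : i < rper X K) (hp : ringE X K i ∈ perp K) :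
    ∃ v d, At X K v d i := by
  obtain ⟨d, hd, he⟩ := exists_cr ((pv (kw X K))^[i] X.β)
  have hv := vx_ring (X := X) hb i
  refine ⟨_, d, hi, hd, hv, ?_, he⟩
  unfold ringE at hp
  rw [he, plab_cr _ hd, lb_perp_iff _ hd] at hp
  rcases hp with h | h
  · exact h.2
  · exact absurd hv h.1

/-- the position of a label `lb v d`, `v ∈ K`, `v + d ∉ K` -/
lemma RPos.at (hb : vx X.β ∈ K) (hd : IsUnit4 d) (hv : v ∈ K) (hvd : v + d ∉ K)
    (h : RPos X K (lb v d) i) : At X K v d i := by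
  rw [rpos_iff] at h
  have hp : ringE X K i ∈ Pool.Agent.Q1.M3.perp K := by
    rw [h.1, lb_perp_iff v hd]; exact Or.inl ⟨hv, hvd⟩
  obtain ⟨v', d', hat⟩ := exists_at hb h.2 hp
  have he := hat.ring
  rw [h.1] at he
  rcases lb_inj hd hat.unit he with ⟨h1, h2⟩ | ⟨h1, -⟩
  · rw [h1, h2]; exact hat
  · exact absurd hat.mem (by rw [h1]; exact hvd)

/-- position of the labels of `perp K` next to the face of the contour -/
lemma exists_at_of_lb (hconn : ∀ u ∈ K, ∀ v ∈ K, Co (kw X K) u v) (hb : vx X.β ∈ K)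
    (hd : IsUnit4 d) (hv : v ∈ K) (hvd : v + d ∉ K) {M : Finset (ℤ × ℤ)}
    (hM : Co (du M (kw X K)) (fi X.β) (fi (cr v d))) : ∃ i, At X K v d i := by
  obtain ⟨i, hi, h⟩ := exists_lt_rper (inOrb_pv_iff.2
    (inOrb_of_co _ (hconn _ hb _ (by rw [vx_cr v hd]; exact hv)) hM))
  exact ⟨i, hi, hd, hv, hvd, h⟩

/-! ### The order of consecutive labels

`0` is a special position (the contour starts there), so the next label has a larger position unless
the contour passes `β`; the position of the label is the same or larger modulo the period. -/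

/-- the next position of a label, modulo the period -/
lemma at_next {n : ℕ} {v' d' : ℤ × ℤ} (hd' : IsUnit4 d') (hv' : v' ∈ K)
    (hvd' : v' + d' ∉ K) (he : (pv (kw X K))^[i + n] X.β = cr v' d') :
    At X K v' d' ((i + n) % rper X K) := by
  refine ⟨Nat.mod_lt _ rper_pos, hd', hv', hvd', ?_⟩
  rw [← he]
  have hm : ∀ m : ℕ, (pv (kw X K))^[rper X K * m] X.β = X.β := by
    intro m
    rw [Function.iterate_mul]
    induction m with
    | zero => rfl
    | succ m ih => rw [Function.iterate_succ_apply', ih, rper_per]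
  nth_rewrite 2 [← Nat.mod_add_div (i + n) (rper X K)]
  rw [Function.iterate_add_apply, hm]

/-- **Next label on a straight side.** -/
theorem At.straight (h : At X K v d i) (h2 : v + rt d ∈ K) (h3 : v + rt d + d ∉ K)
    (e1 : lb v (rt d) ∈ X.E ∪ X.W) : At X K (v + rt d) d ((i + 2) % rper X K) :=
  at_next h.unit h2 h3 (step2 h.unit h.eq h.mem h.notMem h2 e1)

/-- **Next label at a convex corner of `K`.** -/
theorem At.convex (h : At X K v d i) (h2 : v + rt d ∉ K) :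
    At X K v (rt d) ((i + 1) % rper X K) :=
  at_next (unit_rt h.unit) h.mem h2 (step1 h.unit h.eq h.notMem)

/-- **Next label at a reflex corner of `K`.** -/
theorem At.reflex (h : At X K v d i) (h2 : v + rt d ∈ K) (h3 : v + rt d + d ∈ K)
    (e1 : lb v (rt d) ∈ X.E ∪ X.W) (e2 : lb (v + rt d) d ∈ X.E ∪ X.W) :
    At X K (v + rt d + d) (lt d) ((i + 3) % rper X K) :=
  at_next (unit_lt h.unit) h3 (by
    have : v + rt d + d + lt d = v + d := by rw [lt_eq_neg]; abel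
    rw [this]; exact h.notMem) (step3 h.unit h.eq h.mem h.notMem h2 h3 e1 e2)

/-! ### No wrap: the labels around are free

`plab β ∉ E`, so a piece of the contour all labels of which are free does not pass `β`. -/

lemma plab_beta (hI : Inv X) : plab X.β ∉ X.E := by
  obtain ⟨m, h0, -, -, h3, -⟩ := hI.back
  exact h3 0 h0

lemma no_wrap {n : ℕ} (hE : plab X.β ∉ X.E) (hi : i < rper X K)
    (h : ∀ m, 0 < m → m ≤ n → plab ((pv (kw X K))^[i + m] X.β) ∈ X.E) : i + n < rper X K := by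
  by_contra hlt
  rw [not_lt] at hlt
  have h1 := h (rper X K - i) (by omega) (by omega)
  rw [show i + (rper X K - i) = rper X K by omega, rper_per] at h1
  exact hE h1

/-- **Next label on a straight side.** -/
theorem At.straight' (h : At X K v d i) (hE : plab X.β ∉ X.E) (h2 : v + rt d ∈ K)
    (h3 : v + rt d + d ∉ K) (e1 : lb v (rt d) ∈ X.E) (e2 : lb (v + rt d) d ∈ X.E) :
    At X K (v + rt d) d (i + 2) := by
  have s1 := step1 h.unit h.eq h.notMem
  have s2 := step2 h.unit h.eq h.mem h.notMem h2 (mem_union_left _ e1)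
  refine ⟨no_wrap hE h.hlt fun m h0 hm => ?_, h.unit, h2, h3, s2⟩
  obtain rfl | rfl : m = 1 ∨ m = 2 := by omega
  · rw [s1, plab_cr _ (unit_rt h.unit)]; exact e1
  · rw [s2, plab_cr _ h.unit]; exact e2

/-- **Next label at a convex corner of `K`.** -/
theorem At.convex' (h : At X K v d i) (hE : plab X.β ∉ X.E) (h2 : v + rt d ∉ K)
    (e1 : lb v (rt d) ∈ X.E) : At X K v (rt d) (i + 1) := by
  have s1 := step1 h.unit h.eq h.notMem
  refine ⟨no_wrap hE h.hlt fun m h0 hm => ?_, unit_rt h.unit, h.mem, h2, s1⟩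
  obtain rfl : m = 1 := by omega
  rw [s1, plab_cr _ (unit_rt h.unit)]; exact e1

/-- **Next label at a reflex corner of `K`.** -/
theorem At.reflex' (h : At X K v d i) (hE : plab X.β ∉ X.E) (h2 : v + rt d ∈ K)
    (h3 : v + rt d + d ∈ K) (e1 : lb v (rt d) ∈ X.E) (e2 : lb (v + rt d) d ∈ X.E)
    (e3 : lb (v + rt d + d) (lt d) ∈ X.E) : At X K (v + rt d + d) (lt d) (i + 3) := by
  have s1 := step1 h.unit h.eq h.notMem
  have s2 := step2 h.unit h.eq h.mem h.notMem h2 (mem_union_left _ e1)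
  have s3 := step3 h.unit h.eq h.mem h.notMem h2 h3 (mem_union_left _ e1) (mem_union_left _ e2)
  refine ⟨no_wrap hE h.hlt fun m h0 hm => ?_, unit_lt h.unit, h3, ?_, s3⟩
  · obtain rfl | rfl | rfl : m = 1 ∨ m = 2 ∨ m = 3 := by omega
    · rw [s1, plab_cr _ (unit_rt h.unit)]; exact e1
    · rw [s2, plab_cr _ h.unit]; exact e2
    · rw [s3, plab_cr _ (unit_lt h.unit)]; exact e3
  · have : v + rt d + d + lt d = v + d := by rw [lt_eq_neg]; abel
    rw [this]; exact h.notMem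

/-- The next label of `perp K` on the contour of `K` (`p = (v, d)` : the edge from `v ∈ K` to
`v + d ∉ K`); all labels of the contour between them are in `E`. -/
def Nxt (K E : Finset (ℤ × ℤ)) (p q : (ℤ × ℤ) × (ℤ × ℤ)) : Prop :=
  lb p.1 (rt p.2) ∈ E ∧
  ((p.1 + rt p.2 ∉ K ∧ q = (p.1, rt p.2)) ∨
  (p.1 + rt p.2 ∈ K ∧ lb (p.1 + rt p.2) p.2 ∈ E ∧
    ((p.1 + rt p.2 + p.2 ∉ K ∧ q = (p.1 + rt p.2, p.2)) ∨
    (p.1 + rt p.2 + p.2 ∈ K ∧ lb (p.1 + rt p.2 + p.2) (lt p.2) ∈ E ∧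
      q = (p.1 + rt p.2 + p.2, lt p.2)))))

theorem At.nxt {p q : (ℤ × ℤ) × (ℤ × ℤ)} (hE : plab X.β ∉ X.E) (h : At X K p.1 p.2 i)
    (hn : Nxt K X.E p q) : ∃ j, i < j ∧ At X K q.1 q.2 j := by
  obtain ⟨e1, ⟨h2, rfl⟩ | ⟨h2, e2, ⟨h3, rfl⟩ | ⟨h3, e3, rfl⟩⟩⟩ := hn
  · exact ⟨i + 1, by omega, h.convex' hE h2 e1⟩
  · exact ⟨i + 2, by omega, h.straight' hE h2 h3 e1 e2⟩
  · exact ⟨i + 3, by omega, h.reflex' hE h2 h3 e1 e2 e3⟩

/-- **Order along a run.** If `p 0, …, p n` are consecutive labels of the contour of `K` and all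
labels around are free then their positions increase. -/
theorem At.run {p : ℕ → (ℤ × ℤ) × (ℤ × ℤ)} {n : ℕ} (hE : plab X.β ∉ X.E)
    (h : At X K (p 0).1 (p 0).2 i) (hn : ∀ j < n, Nxt K X.E (p j) (p (j + 1))) :
    ∃ f : ℕ → ℕ, (∀ j ≤ n, At X K (p j).1 (p j).2 (f j)) ∧ ∀ j j', j < j' → j' ≤ n → f j < f j' := by
  induction n with
  | zero => exact ⟨fun _ => i, fun j hj => by obtain rfl : j = 0 := by omega
                                              exact h, fun j j' h1 h2 => by omega⟩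
  | succ n ih =>
    obtain ⟨f, hf, hm⟩ := ih fun j hj => hn j (by omega)
    obtain ⟨k, hk, hk'⟩ := At.nxt hE (hf n le_rfl) (hn n (by omega))
    refine ⟨fun j => if j ≤ n then f j else k, fun j hj => ?_, fun j j' h1 h2 => ?_⟩
    · by_cases hjn : j ≤ n
      · simp only [if_pos hjn]; exact hf j hjn
      · obtain rfl : j = n + 1 := by omega
        simp only [if_neg hjn]; exact hk'
    · by_cases hjn : j' ≤ n
      · simp only [if_pos hjn, if_pos (show j ≤ n by omega)]; exact hm j j' h1 hjn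
      · simp only [if_neg hjn, if_pos (show j ≤ n by omega)]
        rcases Nat.lt_or_ge j n with h3 | h3
        · exact (hm j n h3 le_rfl).trans hk
        · obtain rfl : j = n := by omega
          exact hk

end Pool.Agent.H48.Q1.M3
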