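import Pool.Agent.Q1.M3.Pg.RingO
import Pool.Agent.H48.Q1.M3.Step

set_option autoImplicit false
open Finset

/-! Module M3: the root edge of the solid set for a tied step, and the label of a side in the form
`lb v D`. -/

namespace Pool.Agent.Q1.M3.Pg

open Pool.Agent.H75.Perc Pool.Agent.H75.TwoArm Pool.Agent.H75.Four
open Pool.Agent.H69.Q1 Pool.Agent.H28.Q1
open Pool.Agent.H75.TwoArm.StrandAux hiding vx_nxC
open Pool.Agent.H49.Q1 (gcell gs mem_gs)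
open Pool.Agent.Q1.M4 (Adj4 Conn4 Good IsSide inV inRect nextSide tail head)
open Pool.Agent.H5.Q1
open Pool.Agent.H21.Q1 (Sol Wt InvL rl rc per rc_per per_pos Root co_Wt Wt_sub)
open Pool.Agent.H48.Q1.M3 (lb rt)

namespace Tied

variable {d : SD} {o : ℂ} {δ : ℝ} {X Y : DEnv} {Kv τ A : Finset (ℤ × ℤ)} {p0 : ℕ}

lemma kp_eq (t : Tied d o δ X Y Kv τ A p0) :
    Pool.Agent.H21.Q1.kp X Kv = Pool.Agent.H21.Q1.kp Y Kv := t.kp

lemma rl_eq' (t : Tied d o δ X Y Kv τ A p0) (i : ℕ) : rl X Kv i = rl Y Kv i := by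
  unfold rl rc
  rw [t.beta, t.kp_eq]

lemma per_eq (t : Tied d o δ X Y Kv τ A p0) : per X Kv = per Y Kv := by
  unfold per
  simp only [t.beta, t.kp_eq]

/-- **The root edge of the environment is the root edge of the state.** -/
theorem root (t : Tied d o δ X Y Kv τ A p0) (hW : Y.W ⊆ X.W) {j0 : ℕ} {v : ℤ × ℤ}
    (hR : Root Y Kv j0 v) : Root X Kv j0 v where
  lt := by rw [t.per_eq]; exact hR.lt
  perp := by rw [t.rl_eq']; exact hR.perp
  wir := by rw [t.rl_eq']; exact hW hR.wir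
  ends := by rw [t.rl_eq']; exact hR.ends
  conn := (t.wt v (co_Wt hR.conn)).mono Wt_sub

/-- **Every label across a side has a position behind the root edge.** -/
theorem root_lt (t : Tied d o δ X Y Kv τ A p0) {j0 : ℕ} {v : ℤ × ℤ} (hR : Root Y Kv j0 v)
    {n j : ℕ} (hn0 : 0 < n) (hn : n < d.N) (hj : 0 < j) (hj1 : j < d.ln o δ n)
    (hp : d.ol o δ n j ∈ perp Kv) {i : ℕ} (hi : i < per X Kv) (h1 : rl X Kv i = d.ol o δ n j) :
    j0 < i := by
  have h := SD.lpol t.ok t.fine t.p0pos t.p0le t.out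
  set L := SS d.R (LX d.K o.re δ) (LX d.K o.im δ) d.s d.N with hL
  have hlen := SS_pos (Q := d.R) (X := LX d.K o.re δ) (Y := LX d.K o.im δ) (s := d.s) hn hj1
  have htip : p0 ≤ SS d.R (LX d.K o.re δ) (LX d.K o.im δ) d.s n := h.lenle hn0
  have hj10 := h.p0pos
  obtain ⟨m, hm, hm2⟩ : ∃ m, p0 + L - (m + 2) = SS d.R (LX d.K o.re δ) (LX d.K o.im δ) d.s n
      + 2 * j - 1 ∧ m + 2 ≤ p0 + L :=
    ⟨p0 + L - 2 - (SS d.R (LX d.K o.re δ) (LX d.K o.im δ) d.s n + 2 * j - 1), by omega, by omega⟩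
  have hpm : plab (cz (d.G o δ) (d.Cn o δ p0) m) = d.ol o δ n j := by
    unfold SD.G SD.Cn SD.ol
    rw [h.plab_cz hm2, hm]
    obtain ⟨i, rfl⟩ : ∃ i, j = i + 1 := ⟨j - 1, by omega⟩
    have h3 := CC_first (Q := d.R) h.monoX h.monoY h.side n (j := i) (by
      unfold SD.ln at hj1; exact lt_trans (by omega) hj1)
    rw [show SS d.R (LX d.K o.re δ) (LX d.K o.im δ) d.s n + 2 * (i + 1) - 1 =
      SS d.R (LX d.K o.re δ) (LX d.K o.im δ) d.s n + (2 * i + 1) by omega, h3]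
    rfl
  refine t.ctx.ring_lt (q := m) (s := rl Y Kv j0) (u := v) (by rw [hpm]; exact hp) hR.perp
    (mem_union_right _ hR.wir) ?_ hR.ends ?_ (by rw [hpm]; exact t.rpos_iff.2 ⟨h1, hi⟩)
    (t.rpos_iff.2 ⟨t.rl_eq' _, by rw [t.per_eq]; exact hR.lt⟩)
  · intro k hk
    constructor
    · intro h5
      have := h.cz_e1 (t := k) (by omega) h5
      omega
    · intro h5
      have h6 := t.ctx.free_cz k
      rw [h5] at h6
      exact disjoint_left.1 Y.disj h6 hR.wir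
  · exact hR.conn.mono fun a ha => mem_sdiff.2 ⟨mem_union_right _ (mem_sdiff.1 ha).1,
      (mem_sdiff.1 ha).2⟩

end Tied

namespace SD

variable {d : SD} {o : ℂ} {δ : ℝ}

lemma sid_succ (n : ℕ) : d.sid (n + 1) = nextSide d.R (d.sid n) := by
  unfold sid sd
  rw [Function.iterate_succ_apply']

/-- Consecutive outer cells are near. -/
theorem next_near1 (d : SD) (n : ℕ) :
    |(d.oc' (n + 1)).1 - (d.oc' n).1| ≤ 1 ∧ |(d.oc' (n + 1)).2 - (d.oc' n).2| ≤ 1 := by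
  unfold oc' outc
  rw [sid_succ]
  obtain ⟨⟨a, b⟩, k⟩ := d.sid n
  unfold nextSide
  simp only
  rcases dir_cases k with ⟨h1, g1⟩ | ⟨h1, g1⟩ | ⟨h1, g1⟩ | ⟨h1, g1⟩ <;>
  rcases dir_cases (k - 1) with ⟨h2, g2⟩ | ⟨h2, g2⟩ | ⟨h2, g2⟩ | ⟨h2, g2⟩ <;>
  rcases dir_cases (k - 1 - 1) with ⟨h3, g3⟩ | ⟨h3, g3⟩ | ⟨h3, g3⟩ | ⟨h3, g3⟩ <;>
  first
  | (exfalso; omega)
  | (split_ifs <;> simp only [add_sub_cancel_right, g1, g2, g3, Prod.mk_add_mk] <;>
      constructor <;> rw [abs_le] <;> constructor <;> ring_nf <;> norm_num)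

theorem next_near (d : SD) (n : ℕ) :
    |(d.oc' (n + 1)).1 - (d.oc' n).1| ≤ 2 ∧ |(d.oc' (n + 1)).2 - (d.oc' n).2| ≤ 2 := by
  obtain ⟨h1, h2⟩ := next_near1 d n
  exact ⟨by linarith, by linarith⟩

/-- **The labels of a side.** -/
theorem side_lb (h : d.Ok) (hf : d.Fine o δ) {n j : ℕ} (hj : 0 < j) (hj' : j < d.ln o δ n) :
    IsUnit4 (-(dir ((d.sid n).2 - 1))) ∧
    d.ol o δ n j = lb (d.pt' o δ n j + dir ((d.sid n).2 - 1)) (-(dir ((d.sid n).2 - 1))) ∧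
    box δ o d.K (d.pt' o δ n j + dir ((d.sid n).2 - 1)) = d.oc' n ∧
    d.pt' o δ n j + dir ((d.sid n).2 - 1) + -(dir ((d.sid n).2 - 1)) = d.pt' o δ n j ∧
    box δ o d.K (d.pt' o δ n j) ∈ d.R := by
  obtain ⟨b1, b2⟩ := side_box' h hf hj hj'
  refine ⟨isUnit4_neg (isUnit4_dir _), ?_, b2, by abel, by rw [b1]; exact (isSide h n).1⟩
  rw [Pool.Agent.H48.Q1.M3.lb_add]
  have e : d.ol o δ n j = d.pt' o δ n j + (d.pt' o δ n j + dir ((d.sid n).2 - 1)) := outl_eq _ _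
  rw [e]
  abel

/-- Next lattice point of a side. -/
theorem side_succ (n j : ℕ) : d.pt' o δ n (j + 1) = d.pt' o δ n j + dir (d.sid n).2 := by
  unfold pt' sp
  ext
  · simp only [Prod.fst_add]; push_cast; ring
  · simp only [Prod.snd_add]; push_cast; ring

lemma rt_dir (k : ℤ) : rt (-(dir (k - 1))) = dir k := by
  unfold rt
  rcases dir_cases k with ⟨h1, g1⟩ | ⟨h1, g1⟩ | ⟨h1, g1⟩ | ⟨h1, g1⟩ <;>
  rcases dir_cases (k - 1) with ⟨h2, g2⟩ | ⟨h2, g2⟩ | ⟨h2, g2⟩ | ⟨h2, g2⟩ <;>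
  first
  | (exfalso; omega)
  | (rw [g1, g2]; rfl)

/-- **The next label of a side.** -/
theorem side_lb_succ (n j : ℕ) : d.pt' o δ n (j + 1) + dir ((d.sid n).2 - 1) =
    d.pt' o δ n j + dir ((d.sid n).2 - 1) + rt (-(dir ((d.sid n).2 - 1))) := by
  rw [side_succ, rt_dir]
  abel

end SD

end Pool.Agent.Q1.M3.Pg
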