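import Pool.Agent.H48.Q1.M3.CornerD
import Pool.Agent.H21.Q1.PolyZ

set_option autoImplicit false
open Finset

/-! # The channel of a step

`sL_unique` : a side label determines the side. `chan` : a chain of cells of the region from the tip
side to a side of the run gives a channel of the lattice polygon. -/

namespace Pool.Agent.H48.Q1.M3

open Pool.Agent.H75.Perc hiding WL
open Pool.Agent.H75.TwoArm Pool.Agent.H75.Four
open Pool.Agent.H49.Q1 (gcell gs mem_gs CJ)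
open Pool.Agent.Q1.M4 (Adj4 Conn4 Good IsSide inV inRect nextSide tail head PType Cell
  head_eq_tail_next isSide_next)
open Pool.Agent.Q1.M5 (sV sL WL TV CT CI lv)
open Pool.Agent.H5.Q1 (sp slen gp oc side_cases sp_len sp_zero sp_succ fi_oc slen_pos)
open Pool.Agent.Q1.M3.Pg (sl' mem_gcell_iff sl'_mem)

variable {X Y : ℤ → ℤ}

/-- the two faces of a side label -/
lemma sL_faces (hX : StrictMono X) (hY : StrictMono Y) {s : Cell × ℤ} {e : ℤ × ℤ}
    (he : e ∈ sL X Y s) :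
    (s.2 % 4 = 0 ∧ e.1 % 2 = 1 ∧ fcell X Y s.1 ((e.1 + 1) / 2, e.2 / 2 + 1) ∧
      fcell X Y (s.1 + dir (s.2 - 1)) ((e.1 + 1) / 2, e.2 / 2)) ∨
    (s.2 % 4 = 1 ∧ e.1 % 2 = 0 ∧ fcell X Y s.1 (e.1 / 2, (e.2 + 1) / 2) ∧
      fcell X Y (s.1 + dir (s.2 - 1)) (e.1 / 2 + 1, (e.2 + 1) / 2)) ∨
    (s.2 % 4 = 2 ∧ e.1 % 2 = 1 ∧ fcell X Y s.1 ((e.1 + 1) / 2, e.2 / 2) ∧
      fcell X Y (s.1 + dir (s.2 - 1)) ((e.1 + 1) / 2, e.2 / 2 + 1)) ∨
    (s.2 % 4 = 3 ∧ e.1 % 2 = 0 ∧ fcell X Y s.1 (e.1 / 2 + 1, (e.2 + 1) / 2) ∧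
      fcell X Y (s.1 + dir (s.2 - 1)) (e.1 / 2, (e.2 + 1) / 2)) := by
  obtain ⟨⟨a, b⟩, k⟩ := s
  unfold Pool.Agent.Q1.M5.sL gcell at he
  rw [mem_filter, mem_Bx] at he
  have x0 := hX (show a - 1 < a by omega)
  have x1 := hX (show a < a + 1 by omega)
  have x2 := hX (show a + 1 < a + 1 + 1 by omega)
  have y0 := hY (show b - 1 < b by omega)
  have y1 := hY (show b < b + 1 by omega)
  have y2 := hY (show b + 1 < b + 1 + 1 by omega)
  unfold fcell
  simp only at he ⊢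
  rcases dir_cases (k - 1) with ⟨c, f⟩ | ⟨c, f⟩ | ⟨c, f⟩ | ⟨c, f⟩ <;> rw [f]
  · right; left
    have h5 := he.2.2.1 (by omega)
    simp only [Prod.mk_add_mk, add_zero]
    omega
  · right; right; left
    have h5 := he.2.2.2.1 (by omega)
    simp only [Prod.mk_add_mk, add_zero]
    omega
  · right; right; right
    have h5 := he.2.2.2.2 (by omega)
    simp only [Prod.mk_add_mk, add_zero, ← sub_eq_add_neg, sub_add_cancel]
    omega
  · left
    have h5 := he.2.1 (by omega)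
    simp only [Prod.mk_add_mk, add_zero, ← sub_eq_add_neg, sub_add_cancel]
    omega

/-- **A side label determines the side.** -/
theorem sL_unique (hX : StrictMono X) (hY : StrictMono Y) {Q : Finset Cell} {s s' : Cell × ℤ}
    (hs : IsSide Q s) (hs' : IsSide Q s') {e : ℤ × ℤ} (he : e ∈ sL X Y s) (he' : e ∈ sL X Y s') :
    s.1 = s'.1 ∧ (s.2 - s'.2) % 4 = 0 := by
  have key : ∀ {c c' g : ℤ × ℤ}, fcell X Y c g → fcell X Y c' g → c = c' :=
    fun h h' => fcell_unique hX hY h h'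
  rcases sL_faces hX hY he with ⟨a, p, h1, h2⟩ | ⟨a, p, h1, h2⟩ | ⟨a, p, h1, h2⟩ | ⟨a, p, h1, h2⟩ <;>
  rcases sL_faces hX hY he' with ⟨a', p', h1', h2'⟩ | ⟨a', p', h1', h2'⟩ | ⟨a', p', h1', h2'⟩ |
    ⟨a', p', h1', h2'⟩ <;>
  first
  | (exfalso; omega)
  | exact ⟨key h1 h1', by omega⟩
  | (exfalso; exact hs'.2 (key h1 h2' ▸ hs.1))

/-- labels of different sides of a type are different -/
lemma sL_inj (P : PType) (hX : StrictMono X) (hY : StrictMono Y) {i j : ℕ} (hi : i < P.N)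
    (hj : j < P.N) {e : ℤ × ℤ} (h1 : e ∈ sL X Y (P.side i)) (h2 : e ∈ sL X Y (P.side j)) :
    i = j := by
  obtain ⟨h3, h4⟩ := sL_unique hX hY (Pool.Agent.H4.Q1.isSide_side i)
    (Pool.Agent.H4.Q1.isSide_side j) h1 h2
  exact P.inj i hi j hj h3 h4

end Pool.Agent.H48.Q1.M3

namespace Pool.Agent.Q1.M3.Pg.SD

open Pool.Agent.H75.Perc hiding WL
open Pool.Agent.H75.TwoArm Pool.Agent.H75.Four
open Pool.Agent.H49.Q1 (gcell gs mem_gs CJ)
open Pool.Agent.Q1.M4 (Adj4 Conn4 Good IsSide inV inRect nextSide tail head PType Cell)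
open Pool.Agent.Q1.M5 (sV sL WL TV CT CI lv)
open Pool.Agent.H5.Q1 (sp slen slen_pos)
open Pool.Agent.H21.Q1 (Chan JLk ofk Nl)
open Pool.Agent.H77.Q1 (Far)
open Pool.Agent.H48.Q1.M3

variable {d : SD} {o : ℂ} {δ : ℝ}

/-- neighbouring cells -/
def NB (c : ℤ × ℤ) : Set (ℤ × ℤ) := {c' | |c'.1 - c.1| ≤ 1 ∧ |c'.2 - c.2| ≤ 1}

lemma nb_self (c : ℤ × ℤ) : c ∈ NB c := by
  unfold NB; simp

/-- The cell of a side is joined to the cell of the next side near the corner. -/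
lemma prev_cell {Q : Finset (ℤ × ℤ)} (hQ : Good Q) {t : (ℤ × ℤ) × ℤ} (ht : IsSide Q t) :
    J4 ((Q : Set (ℤ × ℤ)) ∩ NB (nextSide Q t).1) (nextSide Q t).1 t.1 := by
  obtain ⟨⟨a, b⟩, k⟩ := t
  obtain ⟨h1, h2⟩ := ht
  unfold nextSide
  simp only at h1 h2 ⊢
  split_ifs with h3 h4
  · -- reflex corner
    have hmid : (a, b) + dir k ∈ Q := by
      rcases dir_cases k with ⟨p, e⟩ | ⟨p, e⟩ | ⟨p, e⟩ | ⟨p, e⟩ <;>
      rcases dir_cases (k - 1) with ⟨q, f⟩ | ⟨q, f⟩ | ⟨q, f⟩ | ⟨q, f⟩ <;>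
      first | (exfalso; omega) | skip
      all_goals
        rw [e, f] at h3
        rw [f] at h2
        rw [e]
        simp only [Prod.mk_add_mk, add_zero, ← sub_eq_add_neg] at h2 h3 ⊢
      · have := hQ.diag2 (a, b - 1) (by simpa using h3) (by simpa using h1)
        simp only [Prod.mk_add_mk, sub_add_cancel] at this
        tauto
      · have := hQ.diag1 (a, b) h1 (by simpa using h3)
        simp only [Prod.mk_add_mk, add_zero] at this
        tauto
      · have := hQ.diag2 (a - 1, b) (by simpa using h1) (by simpa using h3)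
        simp only [Prod.mk_add_mk, sub_add_cancel] at this
        tauto
      · have := hQ.diag1 (a - 1, b - 1) (by simpa using h3) (by simpa using h1)
        simp only [Prod.mk_add_mk, sub_add_cancel, add_zero] at this
        tauto
    have hd : ∀ k : ℤ, |(dir k).1| ≤ 1 ∧ |(dir k).2| ≤ 1 := by
      intro k
      rcases dir_cases k with ⟨-, e⟩ | ⟨-, e⟩ | ⟨-, e⟩ | ⟨-, e⟩ <;> rw [e] <;> norm_num
    have m1 : (a, b) + dir k ∈ ((Q : Set (ℤ × ℤ)) ∩ NB ((a, b) + dir k + dir (k - 1))) := by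
      refine ⟨by exact_mod_cast hmid, ?_⟩
      have := hd (k - 1)
      unfold NB
      constructor
      · have e : ((a, b) + dir k).1 - ((a, b) + dir k + dir (k - 1)).1 = -(dir (k - 1)).1 := by
          simp only [Prod.fst_add]; ring
        rw [e, abs_neg]; exact this.1
      · have e : ((a, b) + dir k).2 - ((a, b) + dir k + dir (k - 1)).2 = -(dir (k - 1)).2 := by
          simp only [Prod.snd_add]; ring
        rw [e, abs_neg]; exact this.2
    have m2 : (a, b) ∈ ((Q : Set (ℤ × ℤ)) ∩ NB ((a, b) + dir k + dir (k - 1))) := by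
      refine ⟨by exact_mod_cast h1, ?_⟩
      unfold NB
      rcases dir_cases k with ⟨p, e⟩ | ⟨p, e⟩ | ⟨p, e⟩ | ⟨p, e⟩ <;>
      rcases dir_cases (k - 1) with ⟨q, f⟩ | ⟨q, f⟩ | ⟨q, f⟩ | ⟨q, f⟩ <;>
      first | (exfalso; omega) | skip
      all_goals
        rw [e, f]
        constructor <;> simp only [Prod.mk_add_mk] <;> ring_nf <;> norm_num
    exact (J4.single (adj4_symm ⟨k - 1, rfl⟩) m1).trans (J4.single (adj4_symm ⟨k, rfl⟩) m2)
  · refine J4.single (adj4_symm ⟨k, rfl⟩) ⟨h1, ?_⟩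
    unfold NB
    rcases dir_cases k with ⟨p, e⟩ | ⟨p, e⟩ | ⟨p, e⟩ | ⟨p, e⟩ <;> rw [e] <;>
      constructor <;> simp only [Prod.mk_add_mk] <;> ring_nf <;> norm_num
  · exact J4.refl _ _

/-- a vertex of the rectangle of a cell has its box near the cell -/
lemma rect_near (hf : d.Fine o δ) {c v : ℤ × ℤ}
    (h : inRect (LX d.K o.re δ) (LX d.K o.im δ) c v) :
    |(box δ o d.K v).1 - c.1| ≤ 1 ∧ |(box δ o d.K v).2 - c.2| ≤ 1 := by
  obtain ⟨⟨h1, h2⟩, h3, h4⟩ := h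
  rw [box_eq]
  simp only
  have g1 := col_near hf.hδ hf.hm3 hf.gen.1 h1 h2
  have g2 := col_near hf.hδ hf.hm3 hf.gen.2 h3 h4
  constructor <;> rw [abs_le]
  · rcases g1 with g | ⟨g, -⟩ | ⟨g, -⟩ <;> omega
  · rcases g2 with g | ⟨g, -⟩ | ⟨g, -⟩ <;> omega

lemma T_side' (h : d.Ok) (hr : d.n1 < d.n2) (n : ℕ) : (h.T hr).side n = d.sid (n + d.n1) :=
  h.T_side hr n

/-- **The channel of a step.** -/
theorem chan (h : d.Ok) (hf : d.Fine o δ) (hr : d.n1 < d.n2) (hN : d.n2 < d.N)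
    {S : Set (ℤ × ℤ)} {n : ℕ} (h1 : d.n1 ≤ n) (h2 : n < d.n2) (hs : d.s.1 ∈ S)
    (hJ : J4 (S ∩ (d.R : Set (ℤ × ℤ))) d.s.1 (d.sid n).1) {c : ℤ × ℤ} {D : ℤ}
    (hfar : ∀ v, (∃ q ∈ S, |(box δ o d.K v).1 - q.1| ≤ 3 ∧ |(box δ o d.K v).2 - q.2| ≤ 3) →
      Far D c v) :
    Chan (h.T hr) (LX d.K o.re δ) (LX d.K o.im δ) d.h c D (n - d.n1) := by
  classical
  set X := LX d.K o.re δ with hXd
  set Y := LX d.K o.im δ with hYd
  have hX : StrictMono X := LX_mono hf.hδ hf.hm3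
  have hY : StrictMono Y := LX_mono hf.hδ hf.hm3
  set P := h.T hr with hP
  have hPQ : P.Q = d.R := rfl
  have hPm : P.m = d.N - d.n1 := rfl
  have hPN : P.N = d.N := rfl
  set A : Finset (ℤ × ℤ) := d.R.filter fun c' => c' ∈ S ∨ c' ∈ NB d.s.1 with hA
  have hsR : d.s.1 ∈ d.R := h.side.1
  have hsA : d.s.1 ∈ A := mem_filter.2 ⟨hsR, Or.inl hs⟩
  set S' : Finset (ℤ × ℤ) := comp A d.s.1 with hS'
  have hS'A : S' ⊆ A := comp_subset _ _
  have hS'R : S' ⊆ d.R := hS'A.trans (filter_subset _ _)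
  have hconn : Conn4 (S' : Set (ℤ × ℤ)) := comp_conn hsA
  have hs' : d.s.1 ∈ S' := self_mem_comp hsA
  have hJA : ∀ {T : Set (ℤ × ℤ)} {c' : ℤ × ℤ}, T ⊆ (A : Set (ℤ × ℤ)) → J4 T d.s.1 c' → c' ∈ S' :=
    fun hT hc => mem_comp.2 ⟨(hc.mono hT).mem (by exact_mod_cast hsA), hc.mono hT⟩
  have hn' : (d.sid n).1 ∈ S' := by
    refine hJA ?_ hJ
    intro x hx
    have : x ∈ A := mem_filter.2 ⟨by exact_mod_cast hx.2, Or.inl hx.1⟩
    exact_mod_cast this
  -- the side before the tip side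
  have hsN : d.sid d.N = (d.s.1, d.s.2 + 4) := h.mark.walk.period
  have hlast : (d.sid (d.N - 1)).1 ∈ S' := by
    have e : nextSide d.R (d.sid (d.N - 1)) = (d.s.1, d.s.2 + 4) := by
      rw [← sid_succ, ← hsN]; congr 1; omega
    have h3 := prev_cell h.good (isSide h (d.N - 1))
    rw [e] at h3
    refine hJA ?_ h3
    intro x hx
    have : x ∈ A := mem_filter.2 ⟨by exact_mod_cast hx.1, Or.inr hx.2⟩
    exact_mod_cast this
  -- all vertices of the cells of `S'` are far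
  have hfar' : ∀ c' ∈ S', ∀ v, inRect X Y c' v → Far D c v := by
    intro c' hc' v hv
    obtain ⟨g1, g2⟩ := rect_near hf hv
    rcases (mem_filter.1 (hS'A hc')).2 with h3 | h3
    · refine hfar v ⟨c', h3, by linarith, by linarith⟩
    · refine hfar v ⟨d.s.1, hs, ?_, ?_⟩
      · have := abs_sub_le (box δ o d.K v).1 c'.1 d.s.1.1
        have := h3.1
        linarith
      · have := abs_sub_le (box δ o d.K v).2 c'.2 d.s.1.2
        have := h3.2
        linarith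
  have hfarL : ∀ l ∈ gs X Y S', ¬ Nl D c l := by
    intro l hl hn
    obtain ⟨c', hc', hl'⟩ := mem_gs.1 hl
    exact hn.1 (hfar' c' hc' _ ((mem_gcell_iff (odd_gs hl)).1 hl').1)
  have hsub : gs X Y S' ⊆ gs X Y P.Q := by
    intro l hl
    obtain ⟨c', hc', hl'⟩ := mem_gs.1 hl
    exact mem_gs.2 ⟨c', hS'R hc', hl'⟩
  have hslm : ∀ t : (ℤ × ℤ) × ℤ, sl' X Y t 0 ∈ gcell X Y t.1 := by
    intro t
    have h3 := sl'_mem hX hY t (slen_pos hX hY t)
    unfold Pool.Agent.Q1.M5.sL at h3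
    exact (mem_filter.1 h3).1
  have hrect : ∀ t : (ℤ × ℤ) × ℤ, inRect X Y t.1 (sp X Y t 0) := by
    intro t
    obtain ⟨h3, h4⟩ := sl'_ends X Y t 0
    have h5 := (mem_gcell_iff h3).1 (hslm t)
    rcases h4 with ⟨h4, -⟩ | ⟨h4, -⟩ <;> rw [h4]
    · exact h5.1
    · exact h5.2
  have hi : P.side (n - d.n1) = d.sid n := by
    rw [hP, T_side']; congr 1; omega
  have hj : P.side (P.m - 1) = d.sid (d.N - 1) := by
    rw [hP, T_side']; congr 1; rw [← hP, hPm]; omega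
  have hm : P.side P.m = (d.s.1, d.s.2 + 4) := by
    rw [← hsN, hP, T_side']; congr 1; rw [← hP, hPm]; omega
  have hh : d.h = d.n2 - d.n1 := rfl
  refine ⟨by rw [hh]; omega, ?_, ?_⟩
  · refine ⟨gs X Y S', sp X Y (P.side (n - d.n1)) 0, sp X Y (P.side P.m) 0, hsub, hfarL,
      Pool.Agent.H29.Q1.sV_sp hX hY _ (Nat.zero_le _), ⟨P.m, le_rfl, P.hmN,
        Pool.Agent.H29.Q1.sV_sp hX hY _ (Nat.zero_le _)⟩, ?_⟩
    refine chain_primal hX hY hconn ⟨(P.side (n - d.n1)).1, by rw [hi]; exact hn', hrect _⟩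
      ⟨(P.side P.m).1, by rw [hm]; exact hs', hrect _⟩
  · set e := sl' X Y (P.side (n - d.n1)) 0 with he
    set e' := sl' X Y (P.side (P.m - 1)) 0 with he'
    set DC := (gs X Y S').filter fun l => l = e ∨ l = e' ∨ ∀ k, l ∉ sL X Y (P.side k) with hDC
    have heL : e ∈ sL X Y (P.side (n - d.n1)) := sl'_mem hX hY _ (slen_pos hX hY _)
    have heL' : e' ∈ sL X Y (P.side (P.m - 1)) := sl'_mem hX hY _ (slen_pos hX hY _)
    have hne : ∀ k, k < P.N → ∀ l ∈ DC, l ∈ sL X Y (P.side k) → k = n - d.n1 ∨ k = P.m - 1 := by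
      intro k hk l hl hlk
      rcases (mem_filter.1 hl).2 with rfl | rfl | h3
      · exact Or.inl (sL_inj P hX hY hk (by rw [hPN]; omega) hlk heL)
      · exact Or.inr (sL_inj P hX hY hk (by rw [hPN, hPm]; omega) hlk heL')
      · exact absurd hlk (h3 k)
    have heW : ∀ i < P.m, ∀ l ∈ sL X Y (P.side i), l ∉ WL P X Y := by
      intro i hi l hl hW
      unfold Pool.Agent.Q1.M5.WL at hW
      obtain ⟨k, hk, hk'⟩ := mem_biUnion.1 hW
      rw [mem_Ico] at hk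
      have hmN := P.hmN
      have := sL_inj P hX hY (i := i) (j := k) (by omega) hk.2 hl hk'
      omega
    have hfe : ∀ i, (P.side i).1 ∈ S' → sl' X Y (P.side i) 0 ∈ gs X Y S' := fun i hi =>
      mem_gs.2 ⟨_, hi, hslm _⟩
    have hm1 : P.m - 1 < P.m := by have := P.hm0; omega
    refine ⟨DC, e, e', P.m - 1, (filter_subset _ _).trans hsub,
      fun l hl => hfarL l (mem_filter.1 hl).1, ?_, ?_, heL, ?_, hm1, heL',
      heW _ (by rw [hPm]; omega) e heL, heW _ hm1 e' heL',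
      hfarL _ (hfe _ (by rw [hi]; exact hn')), hfarL _ (hfe _ (by rw [hj]; exact hlast)), ?_⟩
    · rw [disjoint_left]
      intro l hl hW
      unfold Pool.Agent.Q1.M5.WL at hW
      obtain ⟨k, hk, hk'⟩ := mem_biUnion.1 hW
      rw [mem_Ico] at hk
      have h3 := hne k hk.2 l hl hk'
      rw [hPm] at hk h3
      omega
    · intro n' hn' 
      rw [disjoint_left]
      intro l hl hW
      unfold Pool.Agent.H21.Q1.JLk at hW
      obtain ⟨k, hk, hk'⟩ := mem_biUnion.1 hW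
      rw [mem_Ico] at hk
      have h3 := hne k (by rw [hPN]; omega) l hl hk'
      rw [hPm] at h3
      omega
    · rw [hh, hPm]; omega
    · have h3 := chain_dual P hX hY hconn hS'R (i := n - d.n1) (j := 0) (i' := P.m - 1) (j' := 0)
        (slen_pos hX hY _) (by rw [hi]; exact hn') (slen_pos hX hY _) (by rw [hj]; exact hlast)
        (B := DC) (fun l hl h => mem_filter.2 ⟨hl, h⟩)
      rw [ofc_eq, ofc_eq] at h3
      exact h3

end Pool.Agent.Q1.M3.Pg.SD
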