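import Pool.Agent.H48.Q1.M3.PConv

set_option autoImplicit false
open Finset

/-! # Lattice paths along a chain of cells

`chain_primal` : vertices of the closed rectangles of a 4-connected set `S` of cells are joined by
labels of `gs X Y S`. `chain_dual` : the outer faces of two side labels with inner cells in `S` are
joined by a dual path which crosses these two labels and interior labels only. -/

namespace Pool.Agent.H48.Q1.M3

open Pool.Agent.H75.Perc hiding WL
open Pool.Agent.H75.TwoArm Pool.Agent.H75.Four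
open Pool.Agent.H49.Q1 (gcell gs mem_gs CJ)
open Pool.Agent.Q1.M4 (Adj4 Conn4 Good IsSide inV inRect nextSide tail head PType Cell)
open Pool.Agent.Q1.M5 (sV sL WL TV CT CI lv)
open Pool.Agent.H5.Q1 (sp slen)
open Pool.Agent.H4.Q1 (Gap bw len bp ln)
open Pool.Agent.Q1.M3.Pg (sl' mem_gcell_iff ofc_eq)

/-! ### Paths in rectangles -/

section grid

variable {E : Finset (ℤ × ℤ)} {a1 a2 b1 b2 : ℤ}

lemma grid_h (hE : ∀ x y, a1 ≤ x → x + 1 ≤ a2 → b1 ≤ y → y ≤ b2 → (x, y) + (x + 1, y) ∈ E)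
    {x y : ℤ} (n : ℕ) (h1 : a1 ≤ x) (h2 : x + n ≤ a2) (h3 : b1 ≤ y) (h4 : y ≤ b2) :
    Co E (x, y) (x + n, y) := by
  induction n with
  | zero => simpa using Co.refl _ _
  | succ n ih =>
    push_cast at h2 ⊢
    refine Relation.ReflTransGen.tail (ih (by omega)) ⟨?_, ?_⟩
    · unfold IsUnit4
      left; ext <;> simp
    · have := hE (x + n) y (by omega) (by omega) h3 h4
      rwa [add_assoc] at this

lemma grid_v (hE : ∀ x y, a1 ≤ x → x ≤ a2 → b1 ≤ y → y + 1 ≤ b2 → (x, y) + (x, y + 1) ∈ E)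
    {x y : ℤ} (n : ℕ) (h1 : a1 ≤ x) (h2 : x ≤ a2) (h3 : b1 ≤ y) (h4 : y + n ≤ b2) :
    Co E (x, y) (x, y + n) := by
  induction n with
  | zero => simpa using Co.refl _ _
  | succ n ih =>
    push_cast at h4 ⊢
    refine Relation.ReflTransGen.tail (ih (by omega)) ⟨?_, ?_⟩
    · unfold IsUnit4
      right; left; ext <;> simp
    · have := hE x (y + n) h1 h2 (by omega) (by omega)
      rwa [add_assoc] at this

/-- points of a rectangle are joined -/
lemma grid_co (hE : ∀ u v : ℤ × ℤ, IsUnit4 (v - u) → a1 ≤ u.1 → u.1 ≤ a2 → b1 ≤ u.2 → u.2 ≤ b2 →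
      a1 ≤ v.1 → v.1 ≤ a2 → b1 ≤ v.2 → v.2 ≤ b2 → u + v ∈ E) {u v : ℤ × ℤ}
    (h1 : a1 ≤ u.1) (h2 : u.1 ≤ a2) (h3 : b1 ≤ u.2) (h4 : u.2 ≤ b2)
    (h5 : a1 ≤ v.1) (h6 : v.1 ≤ a2) (h7 : b1 ≤ v.2) (h8 : v.2 ≤ b2) : Co E u v := by
  have hh : ∀ x y, a1 ≤ x → x + 1 ≤ a2 → b1 ≤ y → y ≤ b2 → (x, y) + (x + 1, y) ∈ E :=
    fun x y g1 g2 g3 g4 => hE (x, y) (x + 1, y) (by unfold IsUnit4; left; ext <;> simp)
      g1 (by simp only; omega) g3 g4 (by simp only; omega) g2 g3 g4
  have hv : ∀ x y, a1 ≤ x → x ≤ a2 → b1 ≤ y → y + 1 ≤ b2 → (x, y) + (x, y + 1) ∈ E :=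
    fun x y g1 g2 g3 g4 => hE (x, y) (x, y + 1) (by unfold IsUnit4; right; left; ext <;> simp)
      g1 g2 g3 (by simp only; omega) g1 g2 (by simp only; omega) g4
  obtain ⟨x, y⟩ := u
  obtain ⟨x', y'⟩ := v
  simp only at h1 h2 h3 h4 h5 h6 h7 h8
  have k1 : Co E (x, y) (x', y) := by
    rcases le_total x x' with h | h
    · have := grid_h hh (x := x) (y := y) (x' - x).toNat h1
        (by rw [Int.toNat_of_nonneg (by omega)]; omega) h3 h4
      rwa [Int.toNat_of_nonneg (by omega), add_sub_cancel] at this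
    · have := grid_h hh (x := x') (y := y) (x - x').toNat h5
        (by rw [Int.toNat_of_nonneg (by omega)]; omega) h3 h4
      rw [Int.toNat_of_nonneg (by omega), add_sub_cancel] at this
      exact this.symm
  have k2 : Co E (x', y) (x', y') := by
    rcases le_total y y' with h | h
    · have := grid_v hv (x := x') (y := y) (y' - y).toNat h5 h6 h3
        (by rw [Int.toNat_of_nonneg (by omega)]; omega)
      rwa [Int.toNat_of_nonneg (by omega), add_sub_cancel] at this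
    · have := grid_v hv (x := x') (y := y') (y - y').toNat h5 h6 h7
        (by rw [Int.toNat_of_nonneg (by omega)]; omega)
      rw [Int.toNat_of_nonneg (by omega), add_sub_cancel] at this
      exact this.symm
  exact k1.trans k2

end grid

variable {X Y : ℤ → ℤ}

/-- **Primal chain.** -/
theorem chain_primal (hX : StrictMono X) (hY : StrictMono Y) {S : Finset Cell}
    (hS : Conn4 (S : Set Cell)) {u v : ℤ × ℤ} (hu : inV S X Y u) (hv : inV S X Y v) :
    Co (gs X Y S) u v := by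
  have hrect : ∀ c ∈ S, ∀ u v, inRect X Y c u → inRect X Y c v → Co (gs X Y S) u v := by
    intro c hc u v hu hv
    unfold inRect at hu hv
    refine grid_co (a1 := X c.1) (a2 := X (c.1 + 1)) (b1 := Y c.2) (b2 := Y (c.2 + 1)) ?_
      (by tauto) (by tauto) (by tauto) (by tauto) (by tauto) (by tauto) (by tauto) (by tauto)
    intro a b hab g1 g2 g3 g4 g5 g6 g7 g8
    obtain ⟨h1, h2⟩ := Pool.Agent.Q1.M3.Pg.ends_add hab
    refine mem_gs.2 ⟨c, hc, (mem_gcell_iff h1).2 ?_⟩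
    unfold inRect
    rcases h2 with ⟨h3, h4⟩ | ⟨h3, h4⟩ <;> rw [← h3, ← h4] <;> tauto
  obtain ⟨c, hc, hu⟩ := hu
  obtain ⟨c', hc', hv⟩ := hv
  have key : ∀ d, Relation.ReflTransGen (fun a b => Adj4 a b ∧ b ∈ (S : Set Cell)) c d → d ∈ S ∧
      ∀ v, inRect X Y d v → Co (gs X Y S) u v := by
    intro d hd
    induction hd with
    | refl => exact ⟨hc, fun v hv => hrect c hc u v hu hv⟩
    | @tail a b _ hab ih =>
      obtain ⟨ha, ih⟩ := ih
      obtain ⟨⟨k, hk⟩, hb⟩ := hab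
      have hb' : b ∈ S := by exact_mod_cast hb
      refine ⟨hb', fun v hv => ?_⟩
      -- a common corner
      obtain ⟨w, hw1, hw2⟩ : ∃ w, inRect X Y a w ∧ inRect X Y b w := by
        have x1 := hX.monotone (show a.1 ≤ a.1 + 1 by omega)
        have y1 := hY.monotone (show a.2 ≤ a.2 + 1 by omega)
        have x2 := hX.monotone (show a.1 + 1 ≤ a.1 + 1 + 1 by omega)
        have y2 := hY.monotone (show a.2 + 1 ≤ a.2 + 1 + 1 by omega)
        have x3 := hX.monotone (show a.1 - 1 ≤ a.1 by omega)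
        have y3 := hY.monotone (show a.2 - 1 ≤ a.2 by omega)
        unfold inRect
        rcases dir_cases k with ⟨-, e⟩ | ⟨-, e⟩ | ⟨-, e⟩ | ⟨-, e⟩ <;> rw [e] at hk
        · refine ⟨(X (a.1 + 1), Y a.2), ?_⟩
          rw [hk]; simp only [Prod.fst_add, Prod.snd_add, add_zero]; omega
        · refine ⟨(X a.1, Y (a.2 + 1)), ?_⟩
          rw [hk]; simp only [Prod.fst_add, Prod.snd_add, add_zero]; omega
        · refine ⟨(X a.1, Y a.2), ?_⟩
          rw [hk]; simp only [Prod.fst_add, Prod.snd_add, add_zero, ← sub_eq_add_neg,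
            sub_add_cancel]; omega
        · refine ⟨(X a.1, Y a.2), ?_⟩
          rw [hk]; simp only [Prod.fst_add, Prod.snd_add, add_zero, ← sub_eq_add_neg,
            sub_add_cancel]; omega
      exact (ih w hw1).trans (hrect b hb' w v hw2 hv)
  exact (key c' (hS c (by exact_mod_cast hc) c' (by exact_mod_cast hc'))).2 v hv

/-! ### Faces -/

/-- the face `g` (the unit square with upper right corner `g`) is in the rectangle of the cell `c` -/
def fcell (X Y : ℤ → ℤ) (c g : ℤ × ℤ) : Prop :=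
  X c.1 < g.1 ∧ g.1 ≤ X (c.1 + 1) ∧ Y c.2 < g.2 ∧ g.2 ≤ Y (c.2 + 1)

lemma idx_unique (hX : StrictMono X) {a b t : ℤ} (h1 : X a < t) (h2 : t ≤ X (a + 1))
    (h3 : X b < t) (h4 : t ≤ X (b + 1)) : a = b := by
  rcases lt_trichotomy a b with h | h | h
  · have := hX.monotone (show a + 1 ≤ b by omega); omega
  · exact h
  · have := hX.monotone (show b + 1 ≤ a by omega); omega

lemma fcell_unique (hX : StrictMono X) (hY : StrictMono Y) {c c' g : ℤ × ℤ} (h : fcell X Y c g)
    (h' : fcell X Y c' g) : c = c' := by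
  obtain ⟨h1, h2, h3, h4⟩ := h
  obtain ⟨g1, g2, g3, g4⟩ := h'
  exact Prod.ext (idx_unique hX h1 h2 g1 g2) (idx_unique hY h3 h4 g3 g4)

/-- the label between two neighbouring faces, the first in the cell `c` -/
lemma label_gcell {c g g' : ℤ × ℤ} (h : fcell X Y c g) (hu : IsUnit4 (g' - g)) :
    g + g' - (1, 1) ∈ gcell X Y c := by
  obtain ⟨h1, h2, h3, h4⟩ := h
  obtain ⟨x, y⟩ := g
  obtain ⟨x', y'⟩ := g'
  unfold IsUnit4 at hu
  unfold gcell
  rw [mem_Bx]
  simp only [Prod.mk_sub_mk, Prod.mk.injEq, Prod.mk_add_mk] at *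
  omega

/-- a label between two faces of the region is not on the boundary -/
lemma not_side (hX : StrictMono X) (hY : StrictMono Y) {Q : Finset Cell} {c c' g g' : ℤ × ℤ}
    (hc : c ∈ Q) (hc' : c' ∈ Q) (h : fcell X Y c g) (h' : fcell X Y c' g') (hu : IsUnit4 (g' - g))
    {s : Cell × ℤ} (hs : IsSide Q s) : g + g' - (1, 1) ∉ sL X Y s := by
  intro hl
  unfold Pool.Agent.Q1.M5.sL gcell at hl
  rw [mem_filter, mem_Bx] at hl
  obtain ⟨⟨a, b⟩, k⟩ := s
  obtain ⟨x, y⟩ := g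
  obtain ⟨x', y'⟩ := g'
  have hs2 := hs.2
  have m1 := hX (show a - 1 < a by omega)
  have m2 := hX (show a + 1 < a + 1 + 1 by omega)
  have m3 := hY (show b - 1 < b by omega)
  have m4 := hY (show b + 1 < b + 1 + 1 by omega)
  have key : ∀ p : ℤ × ℤ, p ∉ Q → fcell X Y p (x, y) ∨ fcell X Y p (x', y') → False := by
    rintro p hp (h3 | h3)
    · exact hp (by rw [fcell_unique hX hY h3 h]; exact hc)
    · exact hp (by rw [fcell_unique hX hY h3 h']; exact hc')
  unfold IsUnit4 at hu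
  simp only [Prod.mk_sub_mk, Prod.mk.injEq, Prod.mk_add_mk] at hl hu
  rcases dir_cases (k - 1) with ⟨e, f⟩ | ⟨e, f⟩ | ⟨e, f⟩ | ⟨e, f⟩ <;> simp only at hs2 <;>
    rw [f] at hs2
  · -- direction 1, outer cell on the right
    have h5 := hl.2.2.1 (by omega)
    refine key _ hs2 ?_
    unfold fcell
    simp only [Prod.mk_add_mk, add_zero]
    rcases hu with hu | hu | hu | hu
    · right; omega
    · exfalso; omega
    · left; omega
    · exfalso; omega
  · have h5 := hl.2.2.2.1 (by omega)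
    refine key _ hs2 ?_
    unfold fcell
    simp only [Prod.mk_add_mk, add_zero]
    rcases hu with hu | hu | hu | hu
    · exfalso; omega
    · right; omega
    · exfalso; omega
    · left; omega
  · have h5 := hl.2.2.2.2 (by omega)
    refine key _ hs2 ?_
    unfold fcell
    simp only [Prod.mk_add_mk, add_zero, ← sub_eq_add_neg, sub_add_cancel]
    rcases hu with hu | hu | hu | hu
    · left; omega
    · exfalso; omega
    · right; omega
    · exfalso; omega
  · have h5 := hl.2.1 (by omega)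
    refine key _ hs2 ?_
    unfold fcell
    simp only [Prod.mk_add_mk, add_zero, ← sub_eq_add_neg, sub_add_cancel]
    rcases hu with hu | hu | hu | hu
    · exfalso; omega
    · left; omega
    · exfalso; omega
    · right; omega

/-- faces of a connected set of cells -/
lemma face_conn (hX : StrictMono X) (hY : StrictMono Y) {S : Finset Cell}
    (hS : Conn4 (S : Set Cell)) {E : Finset (ℤ × ℤ)}
    (hE : ∀ c ∈ S, ∀ c' ∈ S, ∀ g g', fcell X Y c g → fcell X Y c' g' → IsUnit4 (g' - g) →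
      g + g' ∈ E) {c c' g g' : ℤ × ℤ} (hc : c ∈ S) (hc' : c' ∈ S) (hg : fcell X Y c g)
    (hg' : fcell X Y c' g') : Co E g g' := by
  have hrect : ∀ c ∈ S, ∀ u v, fcell X Y c u → fcell X Y c v → Co E u v := by
    intro c hc u v hu hv
    refine grid_co (a1 := X c.1 + 1) (a2 := X (c.1 + 1)) (b1 := Y c.2 + 1) (b2 := Y (c.2 + 1)) ?_
      (by have := hu.1; omega) hu.2.1 (by have := hu.2.2.1; omega) hu.2.2.2
      (by have := hv.1; omega) hv.2.1 (by have := hv.2.2.1; omega) hv.2.2.2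
    intro a b hab g1 g2 g3 g4 g5 g6 g7 g8
    exact hE c hc c hc a b ⟨by omega, g2, by omega, g4⟩ ⟨by omega, g6, by omega, g8⟩ hab
  have key : ∀ d, Relation.ReflTransGen (fun a b => Adj4 a b ∧ b ∈ (S : Set Cell)) c d → d ∈ S ∧
      ∀ v, fcell X Y d v → Co E g v := by
    intro d hd
    induction hd with
    | refl => exact ⟨hc, fun v hv => hrect c hc g v hg hv⟩
    | @tail a b _ hab ih =>
      obtain ⟨ha, ih⟩ := ih
      obtain ⟨⟨k, hk⟩, hb⟩ := hab
      have hb' : b ∈ S := by exact_mod_cast hb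
      refine ⟨hb', fun v hv => ?_⟩
      obtain ⟨w, w', hw, hw', hu⟩ : ∃ w w', fcell X Y a w ∧ fcell X Y b w' ∧ IsUnit4 (w' - w) := by
        have x1 := hX (show a.1 < a.1 + 1 by omega)
        have y1 := hY (show a.2 < a.2 + 1 by omega)
        have x2 := hX (show a.1 + 1 < a.1 + 1 + 1 by omega)
        have y2 := hY (show a.2 + 1 < a.2 + 1 + 1 by omega)
        have x3 := hX (show a.1 - 1 < a.1 by omega)
        have y3 := hY (show a.2 - 1 < a.2 by omega)
        unfold fcell IsUnit4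
        rcases dir_cases k with ⟨-, e⟩ | ⟨-, e⟩ | ⟨-, e⟩ | ⟨-, e⟩ <;> rw [e] at hk
        · refine ⟨(X (a.1 + 1), Y a.2 + 1), (X (a.1 + 1) + 1, Y a.2 + 1), ?_⟩
          rw [hk]; simp only [Prod.fst_add, Prod.snd_add, add_zero, Prod.mk_sub_mk,
            Prod.mk.injEq]; omega
        · refine ⟨(X a.1 + 1, Y (a.2 + 1)), (X a.1 + 1, Y (a.2 + 1) + 1), ?_⟩
          rw [hk]; simp only [Prod.fst_add, Prod.snd_add, add_zero, Prod.mk_sub_mk,
            Prod.mk.injEq]; omega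
        · refine ⟨(X a.1 + 1, Y a.2 + 1), (X a.1, Y a.2 + 1), ?_⟩
          rw [hk]; simp only [Prod.fst_add, Prod.snd_add, add_zero, ← sub_eq_add_neg,
            sub_add_cancel, Prod.mk_sub_mk, Prod.mk.injEq]; omega
        · refine ⟨(X a.1 + 1, Y a.2 + 1), (X a.1 + 1, Y a.2), ?_⟩
          rw [hk]; simp only [Prod.fst_add, Prod.snd_add, add_zero, ← sub_eq_add_neg,
            sub_add_cancel, Prod.mk_sub_mk, Prod.mk.injEq]; omega
      refine (ih w hw).trans ((Relation.ReflTransGen.single ⟨hu, ?_⟩ : Co E w w').trans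
        (hrect b hb' w' v hw' hv))
      exact hE a ha b hb' w w' hw hw' hu
  exact (key c' (hS c (by exact_mod_cast hc) c' (by exact_mod_cast hc'))).2 g' hg'

/-- the two faces of a side label -/
lemma side_faces (hX : StrictMono X) (hY : StrictMono Y) (s : Cell × ℤ) {j : ℕ}
    (hj : j < slen X Y s) : ∃ g, fcell X Y s.1 g ∧ IsUnit4 (g - Pool.Agent.Q1.M3.Pg.ofc X Y s j) ∧
      Pool.Agent.Q1.M3.Pg.ofc X Y s j + g = sl' X Y s j + (1, 1) := by
  rw [ofc_eq]
  unfold sl'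
  rw [sp_eq, sp_eq]
  have x1 := hX (show s.1.1 < s.1.1 + 1 by omega)
  have y1 := hY (show s.1.2 < s.1.2 + 1 by omega)
  have hlen : (slen X Y s : ℤ) = len X Y s := by
    unfold slen len
    split_ifs <;> rw [Int.toNat_of_nonneg (by omega)]
  push_cast
  rcases Pool.Agent.H4.Q1.bw_cases X Y s j with ⟨a, -, d, -, e, f⟩ | ⟨a, -, d, -, e, f⟩ |
    ⟨a, -, d, -, e, f⟩ | ⟨a, -, d, -, e, f⟩ <;>
  rcases Pool.Agent.H4.Q1.bw_cases X Y s ((j : ℤ) + 1) with ⟨b, -, -, -, -, g⟩ |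
    ⟨b, -, -, -, -, g⟩ | ⟨b, -, -, -, -, g⟩ | ⟨b, -, -, -, -, g⟩ <;>
  first | (exfalso; omega) | skip
  · refine ⟨(X s.1.1 + j + 1, Y s.1.2 + 1), ?_⟩
    rw [f, g, d]
    unfold fcell IsUnit4
    simp only [Prod.mk_add_mk, Prod.mk_sub_mk, Prod.mk.injEq]
    omega
  · refine ⟨(X (s.1.1 + 1), Y s.1.2 + j + 1), ?_⟩
    rw [f, g, d]
    unfold fcell IsUnit4
    simp only [Prod.mk_add_mk, Prod.mk_sub_mk, Prod.mk.injEq]
    omega
  · refine ⟨(X (s.1.1 + 1) - j, Y (s.1.2 + 1)), ?_⟩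
    rw [f, g, d]
    unfold fcell IsUnit4
    simp only [Prod.mk_add_mk, Prod.mk_sub_mk, Prod.mk.injEq]
    omega
  · refine ⟨(X s.1.1 + 1, Y (s.1.2 + 1) - j), ?_⟩
    rw [f, g, d]
    unfold fcell IsUnit4
    simp only [Prod.mk_add_mk, Prod.mk_sub_mk, Prod.mk.injEq]
    omega

/-- **Dual chain.** -/
theorem chain_dual (P : PType) (hX : StrictMono X) (hY : StrictMono Y) {S : Finset Cell}
    (hS : Conn4 (S : Set Cell)) (hSQ : S ⊆ P.Q) {i j i' j' : ℕ} (hj : j < slen X Y (P.side i))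
    (hi : (P.side i).1 ∈ S) (hj' : j' < slen X Y (P.side i')) (hi' : (P.side i').1 ∈ S)
    {B : Finset (ℤ × ℤ)}
    (hB : ∀ l ∈ gs X Y S, (l = sl' X Y (P.side i) j ∨ l = sl' X Y (P.side i') j' ∨
      ∀ n, l ∉ sL X Y (P.side n)) → l ∈ B) :
    Co (du B ∅) (Pool.Agent.Q1.M3.Pg.ofc X Y (P.side i) j)
      (Pool.Agent.Q1.M3.Pg.ofc X Y (P.side i') j') := by
  obtain ⟨g, h1, h2, h3⟩ := side_faces hX hY (P.side i) hj
  obtain ⟨g', h1', h2', h3'⟩ := side_faces hX hY (P.side i') hj'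
  have hmem : ∀ n j, j < slen X Y (P.side n) → (P.side n).1 ∈ S →
      sl' X Y (P.side n) j ∈ gs X Y S := by
    intro n j hj hn
    have h4 := Pool.Agent.Q1.M3.Pg.sl'_mem hX hY (P.side n) hj
    unfold Pool.Agent.Q1.M5.sL at h4
    exact mem_gs.2 ⟨_, hn, (mem_filter.1 h4).1⟩
  have k1 : Co (du B ∅) (Pool.Agent.Q1.M3.Pg.ofc X Y (P.side i) j) g := by
    refine Relation.ReflTransGen.single ⟨h2, ?_⟩
    rw [h3]
    exact Pool.Agent.H75.TwoArm.StrandAux.mem_du (hB _ (hmem i j hj hi) (Or.inl rfl)) (by simp)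
  have k2 : Co (du B ∅) (Pool.Agent.Q1.M3.Pg.ofc X Y (P.side i') j') g' := by
    refine Relation.ReflTransGen.single ⟨h2', ?_⟩
    rw [h3']
    exact Pool.Agent.H75.TwoArm.StrandAux.mem_du (hB _ (hmem i' j' hj' hi') (Or.inr (Or.inl rfl)))
      (by simp)
  have k3 : Co (du B ∅) g g' := by
    refine face_conn hX hY hS ?_ hi hi' h1 h1'
    intro c hc c' hc' a b ha hb hab
    have h4 : a + b = (a + b - (1, 1)) + (1, 1) := by abel
    rw [h4]
    refine Pool.Agent.H75.TwoArm.StrandAux.mem_du (hB _ (mem_gs.2 ⟨c, hc, label_gcell ha hab⟩)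
      (Or.inr (Or.inr fun n => ?_))) (by simp)
    exact not_side hX hY (hSQ hc) (hSQ hc') ha hb hab (Pool.Agent.H4.Q1.isSide_side n)
  exact k1.trans (k3.trans k2.symm)

end Pool.Agent.H48.Q1.M3
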