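import Pool.Agent.H48.Q1.M3.Chain
import Pool.Agent.H48.Q1.M3.RootLt

set_option autoImplicit false
open Finset

/-! # Corners of a lattice polygon

`corner_dual` : the outer faces of the last label of a side and of the first label of the next side
are joined by a dual path around the corner which crosses labels of the region at the corner only. -/

namespace Pool.Agent.H48.Q1.M3

open Pool.Agent.H75.Perc hiding WL
open Pool.Agent.H75.TwoArm Pool.Agent.H75.Four
open Pool.Agent.H49.Q1 (gcell gs mem_gs CJ)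
open Pool.Agent.Q1.M4 (Adj4 Conn4 Good IsSide inV inRect nextSide tail head PType Cell
  head_eq_tail_next isSide_next)
open Pool.Agent.Q1.M5 (sV sL WL TV CT CI lv)
open Pool.Agent.H5.Q1 (sp slen gp oc side_cases sp_len sp_zero sp_succ fi_oc slen_pos)
open Pool.Agent.Q1.M3.Pg (sl' mem_gcell_iff sl'_mem)
open Pool.Agent.Q1.M3 (star1 mem_star1_iff)

variable {X Y : ℤ → ℤ}

/-- rotate at a vertex -/
lemma quad_step {B : Finset (ℤ × ℤ)} (w : ℤ × ℤ) (k : ℤ) (h : w + (w + dir (k - 1)) ∈ B) :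
    Co (du B ∅) (fi (oc w (k + 1))) (fi (oc w k)) := by
  have key : IsUnit4 (fi (oc w k) - fi (oc w (k + 1))) ∧
      fi (oc w (k + 1)) + fi (oc w k) = w + (w + dir (k - 1)) + (1, 1) := by
    obtain ⟨x, y⟩ := w
    obtain ⟨f0, f1, f2, f3⟩ := fi_oc (x, y) k
    obtain ⟨g0, g1, g2, g3⟩ := fi_oc (x, y) (k + 1)
    unfold IsUnit4
    rcases dir_cases (k - 1) with ⟨a, e⟩ | ⟨a, e⟩ | ⟨a, e⟩ | ⟨a, e⟩
    · rw [f1 (by omega), g2 (by omega), e]
      simp only [Prod.mk_sub_mk, Prod.mk_add_mk, Prod.mk.injEq]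
      omega
    · rw [f2 (by omega), g3 (by omega), e]
      simp only [Prod.mk_sub_mk, Prod.mk_add_mk, Prod.mk.injEq]
      omega
    · rw [f3 (by omega), g0 (by omega), e]
      simp only [Prod.mk_sub_mk, Prod.mk_add_mk, Prod.mk.injEq]
      omega
    · rw [f0 (by omega), g1 (by omega), e]
      simp only [Prod.mk_sub_mk, Prod.mk_add_mk, Prod.mk.injEq]
      omega
  refine Relation.ReflTransGen.single ⟨key.1, ?_⟩
  rw [key.2]
  exact Pool.Agent.H75.TwoArm.StrandAux.mem_du h (by simp)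

lemma star1_self (w : ℤ × ℤ) (k : ℤ) : w + (w + dir k) ∈ star1 w := by
  have hu : IsUnit4 (w + dir k - w) := by rw [add_sub_cancel_left]; exact isUnit4_dir _
  obtain ⟨h1, h2⟩ := Pool.Agent.Q1.M3.Pg.ends_add hu
  exact (mem_star1_iff h1).2 (h2.elim (fun h => Or.inl h.1) (fun h => Or.inr h.1))

/-- the last vertex of a side is the first vertex of the next side -/
lemma sp_next (hX : StrictMono X) (hY : StrictMono Y) {Q : Finset Cell} (s : Cell × ℤ) :
    sp X Y s (slen X Y s) = sp X Y (nextSide Q s) 0 := by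
  rw [sp_len hX hY, sp_zero, head_eq_tail_next]

/-- the label at the last vertex of a side into the cell of the side -/
lemma inner_label (hX : StrictMono X) (hY : StrictMono Y) (s : Cell × ℤ) :
    sp X Y s (slen X Y s) + (sp X Y s (slen X Y s) + dir (s.2 + 1)) ∈ gcell X Y s.1 := by
  have hu : IsUnit4 (sp X Y s (slen X Y s) + dir (s.2 + 1) - sp X Y s (slen X Y s)) := by
    rw [add_sub_cancel_left]; exact isUnit4_dir _
  obtain ⟨h1, h2⟩ := Pool.Agent.Q1.M3.Pg.ends_add hu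
  have hw : inRect X Y s.1 (sp X Y s (slen X Y s)) ∧
      inRect X Y s.1 (sp X Y s (slen X Y s) + dir (s.2 + 1)) := by
    rw [sp_len hX hY]
    obtain ⟨⟨a, b⟩, k⟩ := s
    have x1 := hX (show a < a + 1 by omega)
    have y1 := hY (show b < b + 1 by omega)
    unfold head gp inRect
    simp only
    rcases side_cases hX hY a b k with ⟨e, h1, -, h3, -⟩ | ⟨e, h1, -, h3, -⟩ |
      ⟨e, h1, -, h3, -⟩ | ⟨e, h1, -, h3, -⟩ <;> rw [h1, h3] <;>
    rcases dir_cases (k + 1) with ⟨c, f⟩ | ⟨c, f⟩ | ⟨c, f⟩ | ⟨c, f⟩ <;>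
    first | (exfalso; omega) | skip
    all_goals
      rw [f]
      simp only [Prod.mk_add_mk, add_zero, ← sub_eq_add_neg, add_sub_cancel_right]
      omega
  refine (mem_gcell_iff h1).2 ?_
  rcases h2 with ⟨e1, e2⟩ | ⟨e1, e2⟩
  · rw [← e1, ← e2]; exact hw
  · rw [← e1, ← e2]; exact ⟨hw.2, hw.1⟩

/-- **Dual path around a corner.** -/
theorem corner_dual (hX : StrictMono X) (hY : StrictMono Y) {Q : Finset Cell} {s : Cell × ℤ}
    (hs : IsSide Q s) :
    Co (du (gs X Y Q ∩ star1 (sp X Y s (slen X Y s))) ∅) (Pool.Agent.Q1.M3.Pg.ofc X Y s (slen X Y s - 1))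
      (Pool.Agent.Q1.M3.Pg.ofc X Y (nextSide Q s) 0) := by
  set w := sp X Y s (slen X Y s) with hw
  set s' := nextSide Q s with hs'
  have hw' : sp X Y s' 0 = w := (sp_next hX hY s).symm
  have hlen := slen_pos hX hY s
  have hlen' := slen_pos hX hY s'
  have hside' : IsSide Q s' := isSide_next hs
  -- the last label
  have e0 : sp X Y s (slen X Y s - 1) + dir s.2 = w := by
    rw [hw, ← sp_succ]; congr 1; omega
  have hl1 : w + (w + dir (s.2 - 1 - 1)) ∈ gs X Y Q ∩ star1 w := by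
    refine mem_inter.2 ⟨?_, star1_self _ _⟩
    have h1 := sl'_mem hX hY s (j := slen X Y s - 1) (by omega)
    have h2 : sl' X Y s (slen X Y s - 1) = w + (w + dir (s.2 - 1 - 1)) := by
      unfold Pool.Agent.Q1.M3.Pg.sl'
      rw [show slen X Y s - 1 + 1 = slen X Y s by omega, ← hw]
      have h3 : sp X Y s (slen X Y s - 1) = w + dir (s.2 - 1 - 1) := by
        rw [← e0]
        have h4 : dir s.2 + dir (s.2 - 1 - 1) = 0 := by
          rcases dir_cases s.2 with ⟨a, e⟩ | ⟨a, e⟩ | ⟨a, e⟩ | ⟨a, e⟩ <;>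
          rcases dir_cases (s.2 - 1 - 1) with ⟨b, f⟩ | ⟨b, f⟩ | ⟨b, f⟩ | ⟨b, f⟩ <;>
          first | (exfalso; omega) | (rw [e, f]; rfl)
        rw [add_assoc, h4, add_zero]
      rw [h3]
      abel
    rw [← h2]
    unfold Pool.Agent.Q1.M5.sL at h1
    exact mem_gs.2 ⟨_, hs.1, (mem_filter.1 h1).1⟩
  -- the first label of the next side
  have hl3 : w + (w + dir s'.2) ∈ gs X Y Q ∩ star1 w := by
    refine mem_inter.2 ⟨?_, star1_self _ _⟩
    have h1 := sl'_mem hX hY s' (j := 0) hlen'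
    have h2 : sl' X Y s' 0 = w + (w + dir s'.2) := by
      unfold Pool.Agent.Q1.M3.Pg.sl'
      rw [sp_succ, hw']
    rw [← h2]
    unfold Pool.Agent.Q1.M5.sL at h1
    exact mem_gs.2 ⟨_, hside'.1, (mem_filter.1 h1).1⟩
  -- the inner label
  have hl2 : w + (w + dir (s.2 - 2 - 1)) ∈ gs X Y Q ∩ star1 w := by
    have e1 : dir (s.2 - 2 - 1) = dir (s.2 + 1) := by
      have := Pool.Agent.Q1.M4.dir_add_four (s.2 - 2 - 1)
      rw [← this]; congr 1; ring
    rw [e1]
    exact mem_inter.2 ⟨mem_gs.2 ⟨_, hs.1, inner_label hX hY s⟩, star1_self _ _⟩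
  -- the first face
  have f0 : Pool.Agent.Q1.M3.Pg.ofc X Y s (slen X Y s - 1) = fi (oc w s.2) := by
    unfold Pool.Agent.Q1.M3.Pg.ofc
    rw [← e0]
    generalize sp X Y s (slen X Y s - 1) = z
    obtain ⟨x, y⟩ := z
    obtain ⟨a0, a1, a2, a3⟩ := fi_oc (x, y) (s.2 + 1)
    obtain ⟨b0, b1, b2, b3⟩ := fi_oc ((x, y) + dir s.2) s.2
    rcases dir_cases s.2 with ⟨a, e⟩ | ⟨a, e⟩ | ⟨a, e⟩ | ⟨a, e⟩ <;> rw [e] at b0 b1 b2 b3 ⊢
    · rw [a1 (by omega), b0 (by omega)]; simp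
    · rw [a2 (by omega), b1 (by omega)]; simp
    · rw [a3 (by omega), b2 (by omega)]; simp
    · rw [a0 (by omega), b3 (by omega)]; simp
  have f1 : Pool.Agent.Q1.M3.Pg.ofc X Y s' 0 = fi (oc w (s'.2 + 1)) := by
    unfold Pool.Agent.Q1.M3.Pg.ofc
    rw [hw']
  have q1 := quad_step (B := gs X Y Q ∩ star1 w) w (s.2 - 1) hl1
  rw [sub_add_cancel] at q1
  rw [f0, f1]
  have hcases : s'.2 = s.2 - 1 ∨ s'.2 = s.2 ∨ s'.2 = s.2 + 1 := by
    rw [hs']
    unfold nextSide
    split_ifs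
    · exact Or.inl rfl
    · exact Or.inr (Or.inl rfl)
    · exact Or.inr (Or.inr rfl)
  rcases hcases with h | h | h
  · rw [h, sub_add_cancel]
    exact Co.refl _ _
  · rw [h] at hl3 ⊢
    have q2 := quad_step (B := gs X Y Q ∩ star1 w) w (s.2 - 2) hl2
    have q3 := quad_step (B := gs X Y Q ∩ star1 w) w (s.2 - 3) (by
      have e1 : dir (s.2 - 3 - 1) = dir s.2 := by
        have := Pool.Agent.Q1.M4.dir_add_four (s.2 - 3 - 1)
        rw [← this]; congr 1; ring
      rw [e1]; exact hl3)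
    have e2 : oc w (s.2 - 3) = oc w (s.2 + 1) := Pool.Agent.H5.Q1.oc_congr w (by omega)
    rw [show s.2 - 2 + 1 = s.2 - 1 by ring] at q2
    rw [show s.2 - 3 + 1 = s.2 - 2 by ring, e2] at q3
    exact q1.trans (q2.trans q3)
  · rw [h] at hl3 ⊢
    have q2 := quad_step (B := gs X Y Q ∩ star1 w) w (s.2 - 2) hl2
    have e2 : oc w (s.2 - 2) = oc w (s.2 + 1 + 1) := Pool.Agent.H5.Q1.oc_congr w (by omega)
    rw [show s.2 - 2 + 1 = s.2 - 1 by ring, e2] at q2
    exact q1.trans q2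

end Pool.Agent.H48.Q1.M3

namespace Pool.Agent.Q1.M3.Pg.SD

open Pool.Agent.H75.Perc Pool.Agent.H75.TwoArm Pool.Agent.H75.Four

variable {d : SD} {o : ℂ} {δ : ℝ}

/-- the last point of a side -/
theorem pt_next (hf : d.Fine o δ) (n : ℕ) : d.pt' o δ n (d.ln o δ n) = d.pt' o δ (n + 1) 0 := by
  unfold pt' ln
  rw [sid_succ]
  exact Pool.Agent.H48.Q1.M3.sp_next (LX_mono hf.hδ hf.hm3) (LX_mono hf.hδ hf.hm3) _

/-- **Dual path around a corner of the region.** -/
theorem corner (h : d.Ok) (hf : d.Fine o δ) (n : ℕ) :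
    Co (du (d.G o δ ∩ star1 (d.pt' o δ n (d.ln o δ n))) ∅) (d.of' o δ n (d.ln o δ n - 1))
      (d.of' o δ (n + 1) 0) := by
  have := Pool.Agent.H48.Q1.M3.corner_dual (X := LX d.K o.re δ) (Y := LX d.K o.im δ)
    (LX_mono hf.hδ hf.hm3) (LX_mono hf.hδ hf.hm3) (isSide h n)
  unfold of' pt' ln G
  rw [sid_succ]
  exact this

end Pool.Agent.Q1.M3.Pg.SD
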