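import Pool.Agent.Q1.M3.Pg.Ctx

set_option autoImplicit false
open Finset

/-! # The ring of a solid set and the exit position (Q1_M3, B1 and B2)

* `kw X K` : labels inside `K` which are free or wired; `ringE X K i = plab ((pv (kw X K))^[i] X.β)`.
* `rper X K` : period of the contour of `K` from the corner `β`; `rpos_iff`.
* `ring_inj` : a label of `perp K` is met at most once.
* `exit_ring` : the first label of `star K` met by the exploration is on the ring of `β`.
* `exit_pos`, `exit_pos_dual` : the exit position is the largest position of the ring joined to the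
  tip outside of `star K` (open labels), and the smallest one in the dual sense. -/

namespace Pool.Agent.H48.Q1.M3

open Pool.Agent.H75.Perc Pool.Agent.H75.TwoArm Pool.Agent.H75.Four Pool.Agent.H99.NC
open Pool.Agent.H69.Q1 Pool.Agent.H39.Q1 Pool.Agent.H28.Q1 Pool.Agent.Q1.M3 Pool.Agent.Q1.M3.Pg
open Pool.Agent.H75.TwoArm.StrandAux hiding vx_nxC

/-! ### Corners at a closed label -/

/-- the vertex of a corner is an end of its label -/
lemma end_plab (c : ℤ × ℤ) : vx c = eu (plab c) ∨ vx c = ev (plab c) := by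
  have h1 : lab (pv ∅ c) = plab c := lab_pv ∅ c
  have h2 := (fi_of_closed (L := ∅) (x := c) (by simp)).1
  have hodd := Pool.Agent.H39.Q1.odd_plab c
  obtain ⟨-, -, -, -, hu, hv⟩ := Pool.Agent.H75.Four.opc_zu hodd
  rcases eq_zu_or_zv hodd h1 with h | h
  · left; rw [h2, h, hu]
  · right; rw [h2, h, hv]

/-- a closed dual path between the two faces of a label, in the form of corners -/
lemma sep_corner {M L : Finset (ℤ × ℤ)} {z : ℤ × ℤ}
    (h : Co (du M (insert (lab z) L)) (fi z) (fi (opc z))) :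
    ¬ Co (L.erase (lab z)) (vx z) (vx (opc z)) := by
  have hodd : ((lab z).1 + (lab z).2) % 2 = 1 := odd_lab z
  obtain ⟨o1, o2, -, -, -, -⟩ := Pool.Agent.H75.Four.opc_zu hodd
  rcases eq_zu_or_zv hodd rfl with h2 | h2
  · have h3 : opc z = zv (lab z) := by rw [← o1]; exact congrArg opc h2
    rw [h3] at h ⊢
    have h4 : fi z = fi (zu (lab z)) := congrArg fi h2
    have h5 : vx z = vx (zu (lab z)) := congrArg vx h2
    rw [h4] at h
    rw [h5]
    exact Pool.Agent.H81.NC.sep_of_dual hodd h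
  · have h3 : opc z = zu (lab z) := by rw [← o2]; exact congrArg opc h2
    rw [h3] at h ⊢
    have h4 : fi z = fi (zv (lab z)) := congrArg fi h2
    have h5 : vx z = vx (zv (lab z)) := congrArg vx h2
    rw [h4] at h
    rw [h5]
    intro h6
    exact Pool.Agent.H81.NC.sep_of_dual hodd h.symm h6.symm

/-- two different corners before the same closed label: the face before the step of one is the face
after the step of the other, the vertices are the two ends -/
lemma twin {L : Finset (ℤ × ℤ)} {c c' : ℤ × ℤ} (h : plab c = plab c') (hne : c ≠ c')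
    (hL : plab c ∉ L) : fi c = fi (pv L c') ∧ fi c' = fi (pv L c) ∧ vx c = vx (pv L c) ∧
      vx c' = vx (opc (pv L c)) ∧ pv L c' = opc (pv L c) := by
  rcases plab_eq (L := L) h with h1 | h1
  · exact absurd h1 hne
  · have h2 := fi_of_closed hL
    have h3 := fi_of_closed (L := L) (x := c') (by rw [← h]; exact hL)
    have h4 : pv L c' = opc (pv L c) := by rw [h1, opc_opc]
    refine ⟨?_, ?_, h2.1, ?_, h4⟩
    · rw [h2.2, h4]
    · rw [h3.2, h1]
    · rw [h3.1, h4]

/-- in a closed label the step does not depend on the configuration -/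
lemma pv_closed {L L' : Finset (ℤ × ℤ)} {c : ℤ × ℤ} (h : plab c ∉ L) (h' : plab c ∉ L') :
    pv L c = pv L' c := pv_eq_of ⟨fun h1 => absurd h1 h, fun h1 => absurd h1 h'⟩

/-! ### Solid sets -/

variable {K : Finset (ℤ × ℤ)}

lemma odd_of_ad {L : Finset (ℤ × ℤ)} {u v : ℤ × ℤ} (h : Ad L u v) : ((u + v).1 + (u + v).2) % 2 = 1 := by
  obtain ⟨h1, -⟩ := h
  obtain ⟨a, b⟩ := u
  obtain ⟨c, d⟩ := v
  unfold IsUnit4 at h1
  simp only [Prod.mk_sub_mk, Prod.mk.injEq, Prod.mk_add_mk] at h1 ⊢
  omega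

lemma mem_of_co_kap {u v : ℤ × ℤ} (hu : u ∈ K) (h : Co (kap K) u v) : v ∈ K := by
  induction h with
  | refl => exact hu
  | @tail b c _ hbc ih =>
    have hodd := odd_of_ad hbc
    have h1 := (mem_kap_iff hodd).1 hbc.2
    rcases ends_of_add hbc.1 rfl with ⟨h2, h3⟩ | ⟨h2, h3⟩
    · rw [h3]; exact h1.2
    · rw [h3]; exact h1.1

/-- labels which do not touch `K` do not lead into `K` -/
lemma notin_of_co' {Q : Finset (ℤ × ℤ)} (hQ : ∀ a ∈ Q, a ∉ star K) {u v : ℤ × ℤ} (hu : u ∉ K)
    (h : Co Q u v) : v ∉ K := by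
  induction h with
  | refl => exact hu
  | @tail b c _ hbc ih =>
    have hodd := odd_of_ad hbc
    have h1 := hQ _ hbc.2
    rw [mem_star_iff hodd, not_or] at h1
    rcases ends_of_add hbc.1 rfl with ⟨h2, h3⟩ | ⟨h2, h3⟩
    · rw [h3]; exact h1.2
    · rw [h3]; exact h1.1

/-- labels outside the star do not lead into `K` -/
lemma notin_of_co {L : Finset (ℤ × ℤ)} {u v : ℤ × ℤ} (hu : u ∉ K) (h : Co (L \ star K) u v) :
    v ∉ K := notin_of_co' (fun _ ha => (mem_sdiff.1 ha).2) hu h

lemma kap_sub_star : kap K ⊆ star K := filter_subset _ _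

/-- Labels inside `K` which are free or wired. -/
abbrev kw (X : DEnv) (K : Finset (ℤ × ℤ)) : Finset (ℤ × ℤ) := kap K ∩ (X.E ∪ X.W)

variable {X : DEnv} {ω : Finset (ℤ × ℤ)} {τ : ℕ}

lemma kw_kap : kw X K ⊆ kap K := inter_subset_left

lemma kw_star : kw X K ⊆ star K := inter_subset_left.trans kap_sub_star

lemma perp_kw {e : ℤ × ℤ} (h : e ∈ perp K) : e ∉ kw X K := fun h1 =>
  (mem_sdiff.1 h).2 (kw_kap h1)

lemma perp_star {e : ℤ × ℤ} (h : e ∈ perp K) : e ∈ star K := (mem_sdiff.1 h).1

/-- a label of the ring which is free or wired and not in `kw` is in `perp K` -/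
lemma perp_of {e : ℤ × ℤ} (h : e ∈ star K) (hk : e ∉ kw X K) (hE : e ∈ X.E ∪ X.W) : e ∈ perp K :=
  mem_sdiff.2 ⟨h, fun h1 => hk (mem_inter.2 ⟨h1, hE⟩)⟩

/-- the vertices of the contour are in `K` -/
lemma vx_ring {c : ℤ × ℤ} (hc : vx c ∈ K) (i : ℕ) : vx ((pv (kw X K))^[i] c) ∈ K := by
  have h := Pool.Agent.H39.Q1.side_open (kw X K) c (Nat.zero_le i)
  exact mem_of_co_kap hc (h.mono (inter_subset_left.trans kw_kap))

lemma odd_ring (i : ℕ) : ((ringE X K i).1 + (ringE X K i).2) % 2 = 1 :=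
  Pool.Agent.H39.Q1.odd_plab _

lemma ring_star (hc : vx X.β ∈ K) (i : ℕ) : ringE X K i ∈ star K := by
  have h := end_plab ((pv (kw X K))^[i] X.β)
  have h2 := vx_ring (X := X) hc i
  unfold ringE
  rw [mem_star_iff (Pool.Agent.H39.Q1.odd_plab _)]
  rcases h with h | h
  · left; rw [← h]; exact h2
  · right; rw [← h]; exact h2

/-! ### The period -/

/-- Period of the contour. -/
noncomputable def rper (X : DEnv) (K : Finset (ℤ × ℤ)) : ℕ :=
  open Classical in Nat.find (VisAux.exists_period (kw X K) X.β)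

lemma rper_pos : 0 < rper X K := by
  classical
  exact (Nat.find_spec (VisAux.exists_period (kw X K) X.β)).1

lemma rper_per : (pv (kw X K))^[rper X K] X.β = X.β := by
  classical
  exact (Nat.find_spec (VisAux.exists_period (kw X K) X.β)).2

lemma rper_min {i : ℕ} (h0 : 0 < i) (hi : i < rper X K) :
    (pv (kw X K))^[i] X.β ≠ X.β := by
  classical
  intro h
  exact Nat.find_min (VisAux.exists_period (kw X K) X.β) hi ⟨h0, h⟩

/-- positions before the period -/
lemma rpos_iff {e : ℤ × ℤ} {i : ℕ} : RPos X K e i ↔ ringE X K i = e ∧ i < rper X K := by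
  unfold RPos
  refine and_congr_right fun _ => ⟨fun h => ?_, fun h t h0 ht => rper_min h0 (by omega)⟩
  by_contra hlt
  exact h _ rper_pos (not_lt.1 hlt) rper_per

lemma rper_inj {i j : ℕ} (hi : i < rper X K) (hj : j < rper X K)
    (h : (pv (kw X K))^[i] X.β = (pv (kw X K))^[j] X.β) : i = j := by
  have key : ∀ i j : ℕ, i < j → j < rper X K →
      (pv (kw X K))^[i] X.β = (pv (kw X K))^[j] X.β → False := by
    intro i j hij hj h
    have h1 : (pv (kw X K))^[i] X.β = (pv (kw X K))^[i] ((pv (kw X K))^[j - i] X.β) := by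
      rw [← Function.iterate_add_apply, h]
      congr 1
      omega
    exact rper_min (by omega) (by omega) (pv_iterate_inj h1).symm
  rcases lt_trichotomy i j with h1 | h1 | h1
  · exact (key i j h1 hj h).elim
  · exact h1
  · exact (key j i h1 hi h.symm).elim

/-- a corner of the orbit is reached within one period -/
lemma exists_lt_rper {z : ℤ × ℤ} (h : InOrb (pv (kw X K)) X.β z) :
    ∃ i < rper X K, (pv (kw X K))^[i] X.β = z := by
  obtain ⟨n, rfl⟩ := h
  refine ⟨n % rper X K, Nat.mod_lt _ rper_pos, ?_⟩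
  have hm : ∀ m : ℕ, (pv (kw X K))^[rper X K * m] X.β = X.β := by
    intro m
    rw [Function.iterate_mul]
    induction m with
    | zero => rfl
    | succ m ih => rw [Function.iterate_succ_apply', ih, rper_per]
  nth_rewrite 2 [← Nat.mod_add_div n (rper X K)]
  rw [Function.iterate_add_apply, hm]

/-- **A label of `perp K` is met at most once per period.** -/
theorem ring_inj (hc : vx X.β ∈ K) {i j : ℕ} (hi : i < rper X K) (hj : j < rper X K)
    (h : ringE X K i = ringE X K j) (hp : ringE X K i ∈ perp K) : i = j := by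
  apply rper_inj hi hj
  by_contra hne
  have hk : ringE X K i ∉ kap K := (mem_sdiff.1 hp).2
  obtain ⟨-, -, h1, h2, -⟩ := twin (L := kap K) (show plab _ = plab _ from h) hne hk
  have v1 := vx_ring (X := X) hc i
  have v2 := vx_ring (X := X) hc j
  have hodd := odd_ring (X := X) (K := K) i
  apply hk
  rw [mem_kap_iff hodd]
  -- the two ends
  have hl : lab (pv (kap K) ((pv (kw X K))^[i] X.β)) = ringE X K i := lab_pv _ _
  obtain ⟨o1, o2, -, -, hu, hv⟩ := Pool.Agent.H75.Four.opc_zu hodd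
  rcases eq_zu_or_zv hodd hl with h3 | h3
  · rw [h3] at h1 h2
    rw [o1] at h2
    exact ⟨by rw [← hu, ← h1]; exact v1, by rw [← hv, ← h2]; exact v2⟩
  · rw [h3] at h1 h2
    rw [o2] at h2
    exact ⟨by rw [← hu, ← h2]; exact v2, by rw [← hv, ← h1]; exact v1⟩

/-- a label of `perp K` has one position -/
theorem RPos.inj (hc : vx X.β ∈ K) {e : ℤ × ℤ} (hp : e ∈ perp K) {i j : ℕ} (hi : RPos X K e i)
    (hj : RPos X K e j) : i = j := by
  rw [rpos_iff] at hi hj
  exact ring_inj hc hi.2 hj.2 (hi.1.trans hj.1.symm) (by rw [hi.1]; exact hp)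

/-! ### The exit of an exploration -/

/-- the tip is joined to the exit corner outside the star -/
lemma co_exit (hfirst : ∀ j < τ, plab (X.cor ω j) ∉ star K) :
    Co ((ω ∪ X.W) \ star K) (vx X.α) (vx (X.cor ω τ)) := by
  have h := X.side_open ω (Nat.zero_le τ)
  refine h.mono fun e he => ?_
  obtain ⟨h1, h2⟩ := mem_inter.1 he
  rw [mem_sdiff]
  refine ⟨h1, ?_⟩
  obtain ⟨k, ⟨-, hk⟩, rfl⟩ := mem_met.1 h2
  exact hfirst k hk

/-- the face of the exit corner is joined to the face of the tip by labels which are closed and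
outside the star -/
lemma co_exit_dual (hfirst : ∀ j < τ, plab (X.cor ω j) ∉ star K) :
    Co (du (X.metE ω 0 τ) (ω ∪ X.W ∪ star K)) (fi X.α) (fi (X.cor ω τ)) := by
  have h := X.side_dual ω (Nat.zero_le τ)
  refine h.mono (du_sub_of fun e he h1 => ?_)
  rw [mem_union, not_or]
  refine ⟨h1, ?_⟩
  obtain ⟨k, ⟨-, hk⟩, rfl⟩ := mem_met.1 he
  exact hfirst k hk

lemma exit_notin (hα : vx X.α ∉ K) (hfirst : ∀ j < τ, plab (X.cor ω j) ∉ star K) :
    vx (X.cor ω τ) ∉ K := notin_of_co hα (co_exit hfirst)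

lemma exit_perp (hα : vx X.α ∉ K) (hfirst : ∀ j < τ, plab (X.cor ω j) ∉ star K)
    (hexit : plab (X.cor ω τ) ∈ star K) : plab (X.cor ω τ) ∈ perp K := by
  have h1 := exit_notin hα hfirst
  unfold perp
  rw [mem_sdiff]
  refine ⟨hexit, fun h => h1 ?_⟩
  rw [mem_kap_iff (Pool.Agent.H39.Q1.odd_plab _)] at h
  rcases end_plab (X.cor ω τ) with h2 | h2
  · rw [h2]; exact h.1
  · rw [h2]; exact h.2

/-- a dual path with labels closed in `E ∪ W` is a dual path off `kw` -/
lemma co_of_clJ (K : Finset (ℤ × ℤ)) {f g : ℤ × ℤ} (h : ClJ X f g) :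
    ∃ M, Co (du M (kw X K)) f g := by
  obtain ⟨F, hF⟩ := h
  exact ⟨F, hF.mono (du_anti inter_subset_right)⟩

lemma du_union_left {M N L : Finset (ℤ × ℤ)} {f g h : ℤ × ℤ} (h1 : Co (du M L) f g)
    (h2 : Co (du N L) g h) : Co (du (M ∪ N) L) f h :=
  (h1.mono (du_mono_left subset_union_left)).trans (h2.mono (du_mono_left subset_union_right))

/-- the other corner with the face of `c` at a label of `perp K` is in `K` -/
lemma exists_in (c : ℤ × ℤ) (hp : plab c ∈ perp K) (hn : vx c ∉ K) :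
    ∃ z, vx z ∈ K ∧ fi z = fi c ∧ lab z = plab c := by
  have hk : plab c ∉ kap K := (mem_sdiff.1 hp).2
  have h1 := fi_of_closed hk
  refine ⟨opc (pv (kap K) c), ?_, h1.2.symm, ?_⟩
  · have hodd := Pool.Agent.H39.Q1.odd_plab c
    obtain ⟨o1, o2, -, -, hu, hv⟩ := Pool.Agent.H75.Four.opc_zu hodd
    have hpp := (mem_perp_iff hodd).1 hp
    rcases eq_zu_or_zv hodd (lab_pv (kap K) c) with h3 | h3
    · have e1 : vx c = eu (plab c) := by rw [h1.1, h3, hu]
      have e2 : vx (opc (pv (kap K) c)) = ev (plab c) := by rw [h3, o1, hv]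
      rw [e1] at hn
      rw [e2]
      tauto
    · have e1 : vx c = ev (plab c) := by rw [h1.1, h3, hv]
      have e2 : vx (opc (pv (kap K) c)) = eu (plab c) := by rw [h3, o2, hu]
      rw [e1] at hn
      rw [e2]
      tauto
  · have : lab (opc (pv (kap K) c)) = lab (pv (kap K) c) := lab_eq_iff.2 (Or.inr rfl)
    rw [this, lab_pv]

/-- **A label of `perp K` one face of which is joined to the face of `β` off `kw` is on the ring.** -/
theorem on_ring (hconn : ∀ u ∈ K, ∀ v ∈ K, Co (kw X K) u v) {c : ℤ × ℤ} (hb : vx X.β ∈ K)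
    (hp : plab c ∈ perp K) {M : Finset (ℤ × ℤ)} (hM : Co (du M (kw X K)) (fi X.β) (fi c)) :
    ∃ i < rper X K, ringE X K i = plab c := by
  by_cases hn : vx c ∈ K
  · obtain ⟨i, hi, h7⟩ := exists_lt_rper (inOrb_pv_iff.2 (inOrb_of_co _ (hconn _ hb _ hn) hM))
    exact ⟨i, hi, by unfold ringE; rw [h7]⟩
  · -- the corner at the end in `K` with the face of `c`
    obtain ⟨z, hvz, hfz, hlz⟩ := exists_in c hp hn
    rw [← hfz] at hM
    have h5 : InOrb (nx (kw X K)) X.β z := inOrb_of_co _ (hconn _ hb _ hvz) hM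
    have h6 : InOrb (nx (kw X K)) X.β (nx (kw X K) z) := inOrb_trans h5 (inOrb_nx _ _)
    obtain ⟨i, hi, h7⟩ := exists_lt_rper (inOrb_pv_iff.2 h6)
    refine ⟨i, hi, ?_⟩
    unfold ringE
    rw [h7, ← lab_pv (kw X K), pv_nx, hlz]

/-- **The exit label is on the ring** (at the corner of the other end of the label). -/
theorem exit_ring (hI : Inv X) (hK : Solid X K) (hfirst : ∀ j < τ, plab (X.cor ω j) ∉ star K)
    (hexit : plab (X.cor ω τ) ∈ star K) :
    ∃ i < rper X K, ringE X K i = plab (X.cor ω τ) := by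
  have hp := exit_perp hK.alpha hfirst hexit
  obtain ⟨M, hM⟩ := co_of_clJ K hI.clJ
  have h2 : Co (du (X.metE ω 0 τ) (kw X K)) (fi X.α) (fi (X.cor ω τ)) :=
    (co_exit_dual hfirst).mono (du_anti fun e he =>
      mem_union_right _ (kw_star he))
  exact on_ring hK.conn hK.beta hp (du_union_left hM h2)

/-- a corner outside `K` is different from the corners of the ring -/
lemma ring_ne (hb : vx X.β ∈ K) {c : ℤ × ℤ} (hc : vx c ∉ K) (i : ℕ) :
    c ≠ (pv (kw X K))^[i] X.β := by
  intro h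
  rw [h] at hc
  exact hc (vx_ring hb i)

/-- **Core.** `c` is a corner outside `K` before a label of `perp K`, `s` is another label of `perp K`,
the vertex of `c` and the outer end of `s` are joined to a vertex `x` by labels `Q` which do not touch
`K`. Then the face of `c` is not joined to the face before the label on the ring by labels outside
`Q`, `kw`, `plab c`, `s`. -/
theorem core_gen (hconn : ∀ u ∈ K, ∀ v ∈ K, Co (kw X K) u v) (hb : vx X.β ∈ K)
    {Q : Finset (ℤ × ℤ)} (hQ : ∀ a ∈ Q, a ∉ star K) {c x : ℤ × ℤ} (hcK : vx c ∉ K)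
    (hp : plab c ∈ perp K) (hcα : Co Q x (vx c)) {i : ℕ} (hi : ringE X K i = plab c)
    {s u : ℤ × ℤ} (hs : s ∈ perp K) (hse : s ≠ plab c) (hu : u = eu s ∨ u = ev s)
    (hxK : x ∉ K) (huc : Co Q x u) {M : Finset (ℤ × ℤ)}
    (hM : Co (du M (insert (plab c) (insert s (Q ∪ kw X K)))) (fi c)
      (fi ((pv (kw X K))^[i] X.β))) : False := by
  classical
  set c' := (pv (kw X K))^[i] X.β with hc'
  set e := plab c with he
  set L := insert s (Q ∪ kw X K) with hL
  have hek : e ∉ kw X K := perp_kw hp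
  have heL : e ∉ L := by
    rw [hL, mem_insert, mem_union]
    rintro (h | h | h)
    · exact hse h.symm
    · exact hQ _ h (perp_star hp)
    · exact hek h
  obtain ⟨t1, t2, t3, t4, -⟩ := twin (L := L) (c := c) (c' := c') hi.symm (ring_ne hb hcK i) heL
  set z := pv L c with hz
  have hlz : lab z = e := lab_pv L c
  have hopc : fi (opc z) = fi c := (fi_of_closed heL).2.symm
  have hd : Co (du M (insert (lab z) L)) (fi z) (fi (opc z)) := by
    rw [hlz, hopc, ← t2]
    exact hM.symm
  have hsep := sep_corner hd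
  apply hsep
  rw [hlz, ← t4, ← t3]
  -- the ends are joined off `e`
  have hLe : ∀ {A : Finset (ℤ × ℤ)}, A ⊆ L → A ⊆ L.erase e := fun {A} hA a ha =>
    mem_erase.2 ⟨fun h => heL (h ▸ hA ha), hA ha⟩
  have hQL : Q ⊆ L := fun a ha => by
    rw [hL]; exact mem_insert_of_mem (mem_union_left _ ha)
  have j1 : Co (L.erase e) x (vx c) := hcα.mono (hLe hQL)
  have j2 : Co (L.erase e) x u := huc.mono (hLe hQL)
  have hodds : (s.1 + s.2) % 2 = 1 := odd_star (mem_sdiff.1 hs).1
  have hsL : s ∈ L.erase e := mem_erase.2 ⟨hse, by rw [hL]; exact mem_insert_self _ _⟩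
  have hea := Pool.Agent.H75.Four.PivAux.eu_ev hodds
  have j3 : Co (L.erase e) (eu s) (ev s) :=
    Relation.ReflTransGen.single ⟨hea.1, by rw [hea.2]; exact hsL⟩
  have hnu : u ∉ K := notin_of_co' hQ hxK huc
  -- the end of `s` in `K`
  obtain ⟨w, hw, j4⟩ : ∃ w ∈ K, Co (L.erase e) u w := by
    rcases (mem_perp_iff hodds).1 hs with ⟨h1, h2⟩ | ⟨h1, h2⟩
    · rcases hu with rfl | rfl
      · exact absurd h1 hnu
      · exact ⟨_, h1, j3.symm⟩
    · rcases hu with rfl | rfl
      · exact ⟨_, h2, j3⟩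
      · exact absurd h2 hnu
  have j5 : Co (L.erase e) w (vx c') :=
    (hconn w hw _ (vx_ring hb i)).mono (hLe fun a ha => by
      rw [hL]; exact mem_insert_of_mem (mem_union_right _ ha))
  exact j1.symm.trans (j2.trans (j4.trans j5))

/-- **Core**, at the exit corner. -/
lemma core (hK : Solid X K) (hfirst : ∀ j < τ, plab (X.cor ω j) ∉ star K)
    (hexit : plab (X.cor ω τ) ∈ star K) {i : ℕ} (hi : ringE X K i = plab (X.cor ω τ))
    {s u : ℤ × ℤ} (hs : s ∈ perp K) (hse : s ≠ plab (X.cor ω τ)) (hu : u = eu s ∨ u = ev s)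
    (huc : Co ((ω ∪ X.W) \ star K) (vx X.α) u) {M : Finset (ℤ × ℤ)}
    (hM : Co (du M (insert (plab (X.cor ω τ)) (insert s ((ω ∪ X.W) \ star K ∪ kw X K)))) (fi X.α)
      (fi ((pv (kw X K))^[i] X.β))) : False := by
  have hd1 : Co (du (X.metE ω 0 τ) (insert (plab (X.cor ω τ))
      (insert s ((ω ∪ X.W) \ star K ∪ kw X K)))) (fi X.α) (fi (X.cor ω τ)) := by
    refine (co_exit_dual hfirst).mono (du_sub_of fun a ha hn => ?_)
    rw [mem_union, not_or, mem_union, not_or] at hn
    rw [mem_insert, not_or, mem_insert, not_or, mem_union, not_or, mem_sdiff]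
    refine ⟨fun h => hn.2 (h ▸ hexit), fun h => hn.2 ?_, ?_, fun h => hn.2 ?_⟩
    · rw [h]; exact (mem_sdiff.1 hs).1
    · rintro ⟨h, -⟩
      rw [mem_union] at h
      exact h.elim hn.1.1 hn.1.2
    · exact kw_star h
  exact core_gen hK.conn hK.beta (Q := (ω ∪ X.W) \ star K) (fun a ha => (mem_sdiff.1 ha).2)
    (exit_notin hK.alpha hfirst) (exit_perp hK.alpha hfirst hexit) (co_exit hfirst) hi hs hse hu
    hK.alpha huc (du_union_left hd1.symm hM)

/-- the part of the ring between two positions as a dual path which avoids a set `A` of labels -/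
lemma ring_dual {a b : ℕ} (hab : a ≤ b) {A : Finset (ℤ × ℤ)}
    (hA : ∀ r, a ≤ r → r < b → ringE X K r ∉ kw X K → ringE X K r ∉ A) :
    ∃ M, Co (du M A) (fi ((pv (kw X K))^[a] X.β)) (fi ((pv (kw X K))^[b] X.β)) := by
  refine ⟨met (kw X K) X.β a b, ?_⟩
  have h := Pool.Agent.H39.Q1.side_dual (kw X K) X.β hab
  refine h.mono (du_sub_of fun e he hn => ?_)
  obtain ⟨k, ⟨h1, h2⟩, rfl⟩ := mem_met.1 he
  exact hA k h1 h2 hn

/-- the part of the ring before the positions `i`, `j` avoids their labels -/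
lemma ring_dual' (hb : vx X.β ∈ K) {a b i j : ℕ} (hab : a ≤ b) {Q : Finset (ℤ × ℤ)}
    (hQ : ∀ a ∈ Q, a ∉ star K) (hi : i < rper X K) (hj : j < rper X K)
    (hpi : ringE X K i ∈ perp K) (hpj : ringE X K j ∈ perp K)
    (h1 : b ≤ i ∨ i < a) (h2 : b ≤ j ∨ j < a) (hbr : b ≤ rper X K) :
    ∃ M, Co (du M (insert (ringE X K i) (insert (ringE X K j) (Q ∪ kw X K))))
      (fi ((pv (kw X K))^[a] X.β)) (fi ((pv (kw X K))^[b] X.β)) := by
  refine ring_dual hab fun r h3 h4 hk => ?_
  rw [mem_insert, not_or, mem_insert, not_or, mem_union, not_or]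
  refine ⟨fun h => ?_, fun h => ?_, fun h => hQ _ h (ring_star hb r), hk⟩
  · have := ring_inj hb (by omega) hi h (h ▸ hpi); omega
  · have := ring_inj hb (by omega) hj h (h ▸ hpj); omega

/-- **EXIT, primal form.** No position after the exit position is joined to the tip outside the star:
if the outer end `u` of the ring label `j` (free or wired) is joined to the tip outside the star, then
`j` is at most the exit position. -/
theorem exit_pos (hI : Inv X) (hK : Solid X K) (hω : ω ⊆ X.E)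
    (hfirst : ∀ j < τ, plab (X.cor ω j) ∉ star K) (hexit : plab (X.cor ω τ) ∈ star K) {i : ℕ}
    (hi : i < rper X K) (he : ringE X K i = plab (X.cor ω τ)) {j : ℕ} (hj : j < rper X K)
    (hs : ringE X K j ∈ perp K) (hEW : ringE X K j ∈ X.E ∪ X.W)
    (hexE : plab (X.cor ω τ) ∈ X.E ∪ X.W) {u : ℤ × ℤ}
    (hu : u = eu (ringE X K j) ∨ u = ev (ringE X K j))
    (huc : Co ((ω ∪ X.W) \ star K) (vx X.α) u) : j ≤ i := by
  by_contra hlt
  rw [not_le] at hlt
  have hp := exit_perp hK.alpha hfirst hexit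
  have hse : ringE X K j ≠ plab (X.cor ω τ) := by
    intro h
    have := ring_inj hK.beta hi hj (he.trans h.symm) (he ▸ hp)
    omega
  set L := insert (plab (X.cor ω τ)) (insert (ringE X K j) ((ω ∪ X.W) \ star K ∪ kw X K)) with hL
  -- from the tip to the end
  obtain ⟨F, hF⟩ := hI.clJ
  have h1 : Co (du F L) (fi X.β) (fi X.α) := by
    refine hF.mono (du_sub_of fun a ha hn => ?_)
    rw [hL, mem_insert, not_or, mem_insert, not_or, mem_union, not_or, mem_sdiff]
    refine ⟨?_, fun h => hn (h ▸ hEW), ?_, fun h => hn (mem_inter.1 h).2⟩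
    · exact fun h => hn (h ▸ hexE)
    · rintro ⟨h, -⟩
      apply hn
      rw [mem_union] at h ⊢
      exact h.imp (fun h => hω h) id
  obtain ⟨M, hM⟩ := ring_dual' hK.beta (Nat.zero_le i) (Q := (ω ∪ X.W) \ star K)
    (fun a ha => (mem_sdiff.1 ha).2) hi hj (by rw [he]; exact hp) hs (Or.inl le_rfl)
    (Or.inl hlt.le) hi.le
  rw [he] at hM
  exact core hK hfirst hexit he hs hse hu huc (du_union_left h1.symm hM)

/-- **EXIT, dual form.** Let `j0` be a position of the ring whose outer end is joined to the tip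
outside the star (for instance by wired labels). If the face of the ring corner `b > j0` is joined to
the face of the tip by labels which are closed and outside the star, then the exit position is smaller
than `b`. -/
theorem exit_pos_dual (hK : Solid X K) (hfirst : ∀ j < τ, plab (X.cor ω j) ∉ star K)
    (hexit : plab (X.cor ω τ) ∈ star K) {i : ℕ}
    (hi : i < rper X K) (he : ringE X K i = plab (X.cor ω τ)) {j0 : ℕ} (hj : j0 < rper X K)
    (hs : ringE X K j0 ∈ perp K) {u : ℤ × ℤ}
    (hu : u = eu (ringE X K j0) ∨ u = ev (ringE X K j0))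
    (huc : Co ((ω ∪ X.W) \ star K) (vx X.α) u) {b : ℕ} (hb : j0 < b) {M : Finset (ℤ × ℤ)}
    (hM : Co (du M (ω ∪ X.W ∪ star K)) (fi X.α) (fi ((pv (kw X K))^[b] X.β))) : i < b := by
  by_contra hlt
  rw [not_lt] at hlt
  have hp := exit_perp hK.alpha hfirst hexit
  have hse : ringE X K j0 ≠ plab (X.cor ω τ) := by
    intro h
    have := ring_inj hK.beta hi hj (he.trans h.symm) (he ▸ hp)
    omega
  set L := insert (plab (X.cor ω τ)) (insert (ringE X K j0) ((ω ∪ X.W) \ star K ∪ kw X K)) with hL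
  have h1 : Co (du M L) (fi X.α) (fi ((pv (kw X K))^[b] X.β)) := by
    refine hM.mono (du_anti ?_)
    rw [hL]
    intro a ha
    rw [mem_insert, mem_insert, mem_union, mem_sdiff] at ha
    rw [mem_union]
    rcases ha with rfl | rfl | ⟨h, -⟩ | h
    · exact Or.inr hexit
    · exact Or.inr (mem_sdiff.1 hs).1
    · exact Or.inl h
    · exact Or.inr (kw_star h)
  obtain ⟨N, hN⟩ := ring_dual' hK.beta hlt (Q := (ω ∪ X.W) \ star K)
    (fun a ha => (mem_sdiff.1 ha).2) hi hj (by rw [he]; exact hp) hs (Or.inl le_rfl)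
    (Or.inr hb) hi.le
  rw [he] at hN
  exact core hK hfirst hexit he hs hse hu huc (du_union_left h1 hN)

/-- the face behind the exit position is joined to the face of the tip -/
theorem exit_face (hK : Solid X K) (hfirst : ∀ j < τ, plab (X.cor ω j) ∉ star K)
    (hexit : plab (X.cor ω τ) ∈ star K) {i : ℕ} (he : ringE X K i = plab (X.cor ω τ)) :
    fi (X.cor ω τ) = fi ((pv (kw X K))^[i + 1] X.β) := by
  have hp := exit_perp hK.alpha hfirst hexit
  have h := (twin (L := kw X K) (c := X.cor ω τ) (c' := (pv (kw X K))^[i] X.β) he.symm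
    (ring_ne hK.beta (exit_notin hK.alpha hfirst) i) (perp_kw hp)).1
  rw [h, Function.iterate_succ_apply']

/-- **Where the wired part enters `K`.** -/
theorem exists_wired (hI : Inv X) (hK : Solid X K) :
    ∃ j0 < rper X K, ringE X K j0 ∈ perp K ∧ ringE X K j0 ∈ X.W ∧ ∃ u,
      (u = eu (ringE X K j0) ∨ u = ev (ringE X K j0)) ∧ Co (X.W \ star K) (vx X.α) u := by
  obtain ⟨m, h0, h1, -, h3, h4⟩ := hI.back
  have hco : Co X.W (vx X.α) (vx X.β) := by
    have h := Pool.Agent.H39.Q1.side_open X.W X.β (Nat.zero_le m)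
    rw [h1] at h
    exact (h.mono inter_subset_left).symm
  -- the first vertex in `K`
  have key : ∀ v, Co X.W (vx X.α) v → (Co (X.W \ star K) (vx X.α) v ∧ v ∉ K) ∨
      ∃ s u, s ∈ X.W ∧ s ∈ perp K ∧ (u = eu s ∨ u = ev s) ∧ Co (X.W \ star K) (vx X.α) u := by
    intro v hv
    induction hv with
    | refl => exact Or.inl ⟨Co.refl _ _, hK.alpha⟩
    | @tail b c hb hbc ih =>
      rcases ih with ⟨h5, h6⟩ | h
      · have hodd := odd_of_ad hbc
        rcases ends_of_add hbc.1 rfl with ⟨e1, e2⟩ | ⟨e1, e2⟩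
        · by_cases hc : c ∈ K
          · refine Or.inr ⟨b + c, b, hbc.2, ?_, Or.inl e1, h5⟩
            rw [mem_perp_iff hodd, ← e1, ← e2]
            exact Or.inr ⟨h6, hc⟩
          · refine Or.inl ⟨h5.tail ⟨hbc.1, mem_sdiff.2 ⟨hbc.2, ?_⟩⟩, hc⟩
            rw [mem_star_iff hodd, ← e1, ← e2]
            tauto
        · by_cases hc : c ∈ K
          · refine Or.inr ⟨b + c, b, hbc.2, ?_, Or.inr e1, h5⟩
            rw [mem_perp_iff hodd, ← e1, ← e2]
            exact Or.inl ⟨hc, h6⟩
          · refine Or.inl ⟨h5.tail ⟨hbc.1, mem_sdiff.2 ⟨hbc.2, ?_⟩⟩, hc⟩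
            rw [mem_star_iff hodd, ← e1, ← e2]
            tauto
      · exact Or.inr h
  rcases key _ hco with ⟨-, h⟩ | ⟨s, u, hs, hp, hu, hc⟩
  · exact absurd hK.beta h
  · obtain ⟨k, hk, rfl⟩ := h4 s hs
    have h5 := Pool.Agent.H39.Q1.side_dual X.W X.β (Nat.zero_le k)
    obtain ⟨j0, h6, h7⟩ := on_ring (c := (pv X.W)^[k] X.β) hK.conn hK.beta hp
      (M := met X.W X.β 0 k) (by
        refine h5.mono (du_sub_of fun e he hn hkap => ?_)
        obtain ⟨l, ⟨-, hl⟩, rfl⟩ := mem_met.1 he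
        rcases mem_union.1 (mem_inter.1 hkap).2 with h | h
        · exact h3 l (by omega) h
        · exact hn h)
    exact ⟨j0, h6, by rw [h7]; exact hp, by rw [h7]; exact hs, u, by rw [h7]; exact hu, hc⟩

end Pool.Agent.H48.Q1.M3
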